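import Pool.Agent.helper33.Esc.Defs

/-!
Module T, part 2: any flat metric on the standard torus gives an adapted lattice.
-/

noncomputable section

set_option linter.unusedSectionVars false

namespace Esc

open Set Filter Topology
open scoped RealInnerProductSpace

/-- a positive definite form is the pull back of the Euclidean inner product -/
lemma exists_isom {n : ℕ} (B : EuclideanSpace ℝ (Fin n) →L[ℝ] EuclideanSpace ℝ (Fin n) →L[ℝ] ℝ)
    (hs : ∀ v w, B v w = B w v) (hp : ∀ v, v ≠ 0 → 0 < B v v) :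
    ∃ T : EuclideanSpace ℝ (Fin n) ≃L[ℝ] EuclideanSpace ℝ (Fin n), ∀ v w, ⟪T v, T w⟫ = B v w := by
  set BF : LinearMap.BilinForm ℝ (EuclideanSpace ℝ (Fin n)) :=
    LinearMap.mk₂ ℝ (fun v w => B v w) (by simp) (by simp) (by simp) (by simp) with hBF
  have hsymm : LinearMap.IsSymm BF := ⟨fun v w => by simp [hBF, hs v w]⟩
  obtain ⟨v, hv⟩ := LinearMap.BilinForm.exists_orthogonal_basis hsymm
  set w := v.reindex (finCongr (finrank_euclideanSpace_fin (𝕜 := ℝ) (n := n))) with hw
  have hort : ∀ i j, i ≠ j → B (w i) (w j) = 0 := by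
    intro i j hij
    have hne : (finCongr (finrank_euclideanSpace_fin (𝕜 := ℝ) (n := n))).symm i ≠
        (finCongr (finrank_euclideanSpace_fin (𝕜 := ℝ) (n := n))).symm j :=
      fun h => hij (Equiv.injective _ h)
    have := hv hne
    simpa [hw, hBF] using this
  set T0 : EuclideanSpace ℝ (Fin n) →ₗ[ℝ] EuclideanSpace ℝ (Fin n) :=
    (WithLp.linearEquiv 2 ℝ (Fin n → ℝ)).symm.toLinearMap ∘ₗ
      LinearMap.pi (fun i => Real.sqrt (B (w i) (w i)) • w.coord i) with hT0
  have hT0a : ∀ x i, T0 x i = Real.sqrt (B (w i) (w i)) * w.repr x i := fun x i => by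
    simp [hT0]
  have hin : ∀ x y, ⟪T0 x, T0 y⟫ = B x y := by
    intro x y
    have e1 : B x y = ∑ i, ∑ j, w.repr x i * (w.repr y j * B (w i) (w j)) := by
      conv_lhs => rw [← w.sum_repr x, ← w.sum_repr y]
      simp only [map_sum, FunLike.coe_sum, Finset.sum_apply, map_smul,
        FunLike.coe_smul, Pi.smul_apply, smul_eq_mul, Finset.mul_sum]
      rw [Finset.sum_comm]
      refine Finset.sum_congr rfl fun i _ => Finset.sum_congr rfl fun j _ => by ring
    rw [e1, PiLp.inner_apply]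
    refine Finset.sum_congr rfl fun i _ => ?_
    rw [Finset.sum_eq_single i (fun j _ hj => by rw [hort i j hj.symm, mul_zero, mul_zero]) (by simp)]
    have hpos : 0 ≤ B (w i) (w i) := (hp _ (w.ne_zero i)).le
    simp only [hT0a]
    have e2 : inner ℝ (Real.sqrt (B (w i) (w i)) * w.repr x i)
        (Real.sqrt (B (w i) (w i)) * w.repr y i) =
        (Real.sqrt (B (w i) (w i)) * Real.sqrt (B (w i) (w i))) * (w.repr x i * w.repr y i) := by
      simp only [RCLike.inner_apply, conj_trivial]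
      ring
    rw [e2, Real.mul_self_sqrt hpos]
    ring
  have hinj : Function.Injective T0 := by
    rw [injective_iff_map_eq_zero]
    intro x hx
    by_contra hne
    have h1 := hp x hne
    rw [← hin x x, hx, inner_zero_left] at h1
    exact lt_irrefl _ h1
  refine ⟨(LinearEquiv.ofInjectiveEndo T0 hinj).toContinuousLinearEquiv, fun v w => ?_⟩
  simpa using hin v w

/-- adapted frame -/
theorem exists_frame {d : ℕ}
    (B : EuclideanSpace ℝ (Fin (d + 1)) →L[ℝ] EuclideanSpace ℝ (Fin (d + 1)) →L[ℝ] ℝ)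
    (hs : ∀ v w, B v w = B w v) (hp : ∀ v, v ≠ 0 → 0 < B v v) :
    ∃ (T : EuclideanSpace ℝ (Fin (d + 1)) ≃L[ℝ] EuclideanSpace ℝ (Fin (d + 1))) (c : ℝ)
      (L : Lat d (EuclideanSpace ℝ (Fin (d + 1)))), 0 < c ∧ (∀ v w, ⟪T v, T w⟫ = c * B v w) ∧
      (∀ i : Fin d, L.b i = T (EuclideanSpace.single i.castSucc 1)) ∧
      L.g = T (EuclideanSpace.single (Fin.last d) 1) := by
  obtain ⟨T0, hT0⟩ := exists_isom B hs hp
  set bs : Module.Basis (Fin (d + 1)) ℝ (EuclideanSpace ℝ (Fin (d + 1))) :=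
    (EuclideanSpace.basisFun (Fin (d + 1)) ℝ).toBasis.map T0.toLinearEquiv with hbs
  have hbsa : ∀ i, bs i = T0 (EuclideanSpace.single i 1) := fun i => by simp [hbs]
  set S : Submodule ℝ (EuclideanSpace ℝ (Fin (d + 1))) :=
    Submodule.span ℝ (Set.range fun i : Fin d => bs i.castSucc) with hS
  have hli : LinearIndependent ℝ (fun i : Fin d => bs i.castSucc) :=
    bs.linearIndependent.comp _ (Fin.castSucc_injective d)
  have hSd : Module.finrank ℝ S = d := by
    rw [hS, finrank_span_eq_card hli, Fintype.card_fin]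
  have hSo : Module.finrank ℝ Sᗮ = 1 := by
    have := Submodule.finrank_add_finrank_orthogonal S
    rw [hSd, finrank_euclideanSpace_fin] at this
    omega
  obtain ⟨u, hu0⟩ : ∃ u : Sᗮ, u ≠ 0 := by
    have : Nontrivial Sᗮ := Module.nontrivial_of_finrank_pos (R := ℝ) (by rw [hSo]; norm_num)
    exact exists_ne 0
  have hu0' : (u : EuclideanSpace ℝ (Fin (d + 1))) ≠ 0 := fun h => hu0 (Subtype.ext h)
  have hub : ∀ i : Fin d, ⟪(u : EuclideanSpace ℝ (Fin (d + 1))), bs i.castSucc⟫ = 0 := fun i => by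
    rw [real_inner_comm]
    exact (Submodule.mem_orthogonal S u).1 u.2 _ (Submodule.subset_span ⟨i, rfl⟩)
  have hug : ⟪(u : EuclideanSpace ℝ (Fin (d + 1))), bs (Fin.last d)⟫ ≠ 0 := by
    intro h0
    have hall : ∀ i, ⟪(u : EuclideanSpace ℝ (Fin (d + 1))), bs i⟫ = 0 := by
      intro i
      refine Fin.lastCases h0 (fun i => hub i) i
    have : ⟪(u : EuclideanSpace ℝ (Fin (d + 1))), (u : EuclideanSpace ℝ (Fin (d + 1)))⟫ = 0 := by
      conv_lhs => rw [← bs.sum_repr (u : EuclideanSpace ℝ (Fin (d + 1)))]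
      have e : ⟪∑ i, bs.repr (u : EuclideanSpace ℝ (Fin (d + 1))) i • bs i,
          ∑ i, bs.repr (u : EuclideanSpace ℝ (Fin (d + 1))) i • bs i⟫ = 
          ⟪(u : EuclideanSpace ℝ (Fin (d + 1))),
          ∑ i, bs.repr (u : EuclideanSpace ℝ (Fin (d + 1))) i • bs i⟫ := by
        rw [bs.sum_repr]
      rw [e, inner_sum]
      refine Finset.sum_eq_zero fun i _ => ?_
      rw [real_inner_smul_right, hall i, mul_zero]
    exact hu0' (inner_self_eq_zero.1 this)
  -- unit normal with positive height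
  set ρ : ℝ := ⟪(u : EuclideanSpace ℝ (Fin (d + 1))), bs (Fin.last d)⟫ with hρ
  set e : EuclideanSpace ℝ (Fin (d + 1)) := (SignType.sign ρ * ‖(u : EuclideanSpace ℝ (Fin (d + 1)))‖⁻¹ : ℝ) •
    (u : EuclideanSpace ℝ (Fin (d + 1))) with he
  have hun : 0 < ‖(u : EuclideanSpace ℝ (Fin (d + 1)))‖ := norm_pos_iff.2 hu0'
  have hsg : |((SignType.sign ρ : SignType) : ℝ)| = 1 := by
    rcases lt_or_gt_of_ne hug with h | h
    · rw [sign_neg h]; simp
    · rw [sign_pos h]; simp
  have hen : ‖e‖ = 1 := by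
    rw [he, norm_smul, norm_mul, norm_inv, norm_norm, Real.norm_eq_abs, hsg, one_mul,
      inv_mul_cancel₀ hun.ne']
  set h : ℝ := ⟪e, bs (Fin.last d)⟫ with hh
  have hhpos : 0 < h := by
    rw [hh, he, real_inner_smul_left, ← hρ]
    have : (SignType.sign ρ : ℝ) * ρ = |ρ| := by rw [sign_mul_self]
    have h2 : (SignType.sign ρ : ℝ) * ‖(u : EuclideanSpace ℝ (Fin (d + 1)))‖⁻¹ * ρ =
        |ρ| * ‖(u : EuclideanSpace ℝ (Fin (d + 1)))‖⁻¹ := by rw [← this]; ring
    rw [h2]
    have := abs_pos.2 hug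
    positivity
  have heb : ∀ i : Fin d, ⟪e, bs i.castSucc⟫ = 0 := fun i => by
    rw [he, real_inner_smul_left, hub i, mul_zero]
  set T : EuclideanSpace ℝ (Fin (d + 1)) ≃L[ℝ] EuclideanSpace ℝ (Fin (d + 1)) :=
    T0.trans (ContinuousLinearEquiv.smulLeft (Units.mk0 h⁻¹ (inv_pos.2 hhpos).ne')) with hT
  have hTa : ∀ v, T v = h⁻¹ • T0 v := fun v => rfl
  refine ⟨T, (h⁻¹) ^ 2, ⟨fun i => T (EuclideanSpace.single i.castSucc 1),
    T (EuclideanSpace.single (Fin.last d) 1), e, hen, ?_, ?_, ?_, ?_⟩, by positivity, ?_, fun _ => rfl, rfl⟩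
  · intro i
    rw [hTa, ← hbsa, real_inner_smul_right, heb i, mul_zero]
  · rw [hTa, ← hbsa, real_inner_smul_right, ← hh, inv_mul_cancel₀ hhpos.ne']
  · have : (fun i : Fin d => T (EuclideanSpace.single i.castSucc 1)) =
        fun i => (fun _ : Fin d => Units.mk0 h⁻¹ (inv_pos.2 hhpos).ne') i • bs i.castSucc := by
      funext i
      rw [hTa, ← hbsa]
      rfl
    rw [this]
    exact hli.units_smul _
  · intro x hx
    have hspan : Submodule.span ℝ (Set.range fun i : Fin d => T (EuclideanSpace.single i.castSucc 1)) = S := by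
      rw [hS]
      refine le_antisymm (Submodule.span_le.2 ?_) (Submodule.span_le.2 ?_)
      · rintro _ ⟨i, rfl⟩
        simp only [hTa, ← hbsa]
        exact Submodule.smul_mem _ _ (Submodule.subset_span ⟨i, rfl⟩)
      · rintro _ ⟨i, rfl⟩
        have : bs i.castSucc = h • T (EuclideanSpace.single i.castSucc 1) := by
          rw [hTa, ← hbsa, smul_smul, mul_inv_cancel₀ hhpos.ne', one_smul]
        simp only [this]
        exact Submodule.smul_mem _ _ (Submodule.subset_span ⟨i, rfl⟩)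
    rw [hspan]
    -- decompose x in the basis
    have hx2 : x = ∑ i, bs.repr x i • bs i := (bs.sum_repr x).symm
    have hlast : bs.repr x (Fin.last d) = 0 := by
      rw [hx2, inner_sum, Fin.sum_univ_castSucc] at hx
      simp only [real_inner_smul_right, heb, mul_zero, Finset.sum_const_zero, zero_add] at hx
      rcases mul_eq_zero.1 hx with h1 | h1
      · exact h1
      · exact absurd h1 hhpos.ne'
    rw [hx2, Fin.sum_univ_castSucc, hlast, zero_smul, add_zero]
    exact Submodule.sum_mem _ fun i _ => Submodule.smul_mem _ _ (Submodule.subset_span ⟨i, rfl⟩)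
  · intro v w
    rw [hTa, hTa, real_inner_smul_left, real_inner_smul_right, hT0]
    ring

end Esc
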