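import Pool.Agent.helper37.Esc.PerReg

/-!
Module T, part 1: moving frames, linear changes of variables, norms on smooth perturbations.
-/

noncomputable section

set_option linter.unusedSectionVars false

namespace Esc

open Set Filter Topology MeasureTheory
open scoped NNReal RealInnerProductSpace ContDiff

section ModuleT

variable {d : ℕ} {E : Type*} [NormedAddCommGroup E] [InnerProductSpace ℝ E] [FiniteDimensional ℝ E]
  (L : Lat d E)

theorem escapes_mf {f : E → ℝ → ℝ} (l : ℕ) (h : Escapes (L.mf l f)) : Escapes f := by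
  obtain ⟨x, v, h1, h2, h3, h4⟩ := h
  have hd : ∀ t, HasDerivAt (fun t : ℝ => ((l : ℝ) * t) • L.g) ((l : ℝ) • L.g) t := by
    intro t
    have := ((hasDerivAt_id t).const_mul (l : ℝ)).smul_const L.g
    simpa using this
  refine ⟨fun t => x t + ((l : ℝ) * t) • L.g, fun t => v t + (l : ℝ) • L.g,
    fun t => (h1 t).add (hd t), fun t => ?_, fun t => (h3 t).add_const _, ?_⟩
  · have e1 : deriv (fun t => v t + (l : ℝ) • L.g) t = deriv v t := by
      rw [deriv_add_const]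
    rw [e1]
    have h5 : HasFDerivAt (fun z : E => z - ((l : ℝ) * t) • L.g) (ContinuousLinearMap.id ℝ E)
        (x t + ((l : ℝ) * t) • L.g) := (hasFDerivAt_id _).sub_const _
    have h6 : HasFDerivAt (fun z => L.mf l f z t) (innerSL ℝ (deriv v t))
        (x t + ((l : ℝ) * t) • L.g - ((l : ℝ) * t) • L.g) := by
      rw [add_sub_cancel_right]; exact h2 t
    have h7 := HasFDerivAt.comp (g := fun z => L.mf l f z t)
      (f := fun z : E => z - ((l : ℝ) * t) • L.g) (x t + ((l : ℝ) * t) • L.g) h6 h5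
    rw [ContinuousLinearMap.comp_id] at h7
    refine h7.congr_of_eventuallyEq (Eventually.of_forall fun z => ?_)
    simp [Lat.mf]
  · refine tendsto_atTop_mono (fun t => ?_) (tendsto_atTop_add_const_right _ (-‖(l : ℝ) • L.g‖) h4)
    have := norm_sub_norm_le (v t) (-((l : ℝ) • L.g))
    rw [norm_neg, sub_neg_eq_add] at this
    linarith

/-! ### Change of variables -/

/-- transported potential -/
def core (T : E ≃L[ℝ] E) (c : ℝ) (F : E × ℝ → ℝ) : E → ℝ → ℝ := fun X t => c * F (T.symm X, t)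

/-- inverse transport, followed by the inverse of the moving frame -/
def unc (T : E ≃L[ℝ] E) (c : ℝ) (l : ℕ) (g : E) (G : E → ℝ → ℝ) : E × ℝ → ℝ :=
  fun q => c⁻¹ * G (T q.1 - ((l : ℝ) * q.2) • g) q.2

lemma mf_core_add (T : E ≃L[ℝ] E) {c : ℝ} (hc : c ≠ 0) (l : ℕ) (F : E × ℝ → ℝ) (G : E → ℝ → ℝ) :
    L.mf l (core T c (fun q => F q + unc T c l L.g G q)) =
      fun X t => L.mf l (core T c F) X t + G X t := by
  funext X t
  simp only [Lat.mf, core, unc, mul_add]
  rw [ContinuousLinearEquiv.apply_symm_apply, add_sub_cancel_right, mul_inv_cancel_left₀ hc]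

lemma core_add (T : E ≃L[ℝ] E) {c : ℝ} (hc : c ≠ 0) (F : E × ℝ → ℝ) (G : E → ℝ → ℝ) :
    core T c (fun q => F q + unc T c 0 L.g G q) = fun X t => core T c F X t + G X t := by
  funext X t
  simp only [core, unc, mul_add]
  rw [ContinuousLinearEquiv.apply_symm_apply]
  simp [mul_inv_cancel_left₀ hc]

/-- the linear change of variables behind `unc` -/
def shear (T : E ≃L[ℝ] E) (l : ℕ) (g : E) : E × ℝ →L[ℝ] E × ℝ :=
  (T.toContinuousLinearMap.comp (ContinuousLinearMap.fst ℝ E ℝ) -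
    ((l : ℝ) • (ContinuousLinearMap.snd ℝ E ℝ)).smulRight g).prod (ContinuousLinearMap.snd ℝ E ℝ)

lemma shear_apply (T : E ≃L[ℝ] E) (l : ℕ) (g : E) (q : E × ℝ) :
    shear T l g q = (T q.1 - ((l : ℝ) * q.2) • g, q.2) := by
  simp [shear]

lemma unc_eq (T : E ≃L[ℝ] E) (c : ℝ) (l : ℕ) (g : E) (G : E → ℝ → ℝ) :
    unc T c l g G = fun q => c⁻¹ * (fun p : E × ℝ => G p.1 p.2) (shear T l g q) := by
  funext q
  simp [unc, shear_apply]

lemma unc_contDiff (T : E ≃L[ℝ] E) (c : ℝ) (l : ℕ) (g : E) {G : E → ℝ → ℝ} {N : WithTop ℕ∞}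
    (hG : ContDiff ℝ N (fun p : E × ℝ => G p.1 p.2)) : ContDiff ℝ N (unc T c l g G) := by
  rw [unc_eq]
  exact contDiff_const.mul (hG.comp (shear T l g).contDiff)

/-- transport of periods: `v` is a period of `unc G` when `shear v` is a period of `G` -/
lemma unc_periodic (T : E ≃L[ℝ] E) (c : ℝ) (l : ℕ) (g : E) {G : E → ℝ → ℝ} {v : E × ℝ}
    (hv : Function.Periodic (fun p : E × ℝ => G p.1 p.2) (shear T l g v)) :
    Function.Periodic (unc T c l g G) v := by
  intro q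
  rw [unc_eq]
  simp only
  rw [map_add]
  have := hv (shear T l g q)
  simp only at this
  rw [this]

/-! ### Norms on smooth perturbations -/

lemma sm_bdd {G : E → ℝ → ℝ} (hG : L.IsSm G) (j : ℕ) :
    BddAbove (range fun p => ‖iteratedFDeriv ℝ j (fun p : E × ℝ => G p.1 p.2) p‖) := by
  obtain ⟨p1, p2, p3⟩ := Orb.periodic_of L hG.perb hG.perg hG.pert
  have hper : ∀ c : E × ℝ, Function.Periodic (fun p : E × ℝ => G p.1 p.2) c →
      Function.Periodic (iteratedFDeriv ℝ j (fun p : E × ℝ => G p.1 p.2)) c := by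
    intro c hc p
    rw [← iteratedFDeriv_comp_add_right (𝕜 := ℝ) (f := fun p : E × ℝ => G p.1 p.2) j c p]
    congr 1
    exact funext fun q => hc q
  obtain ⟨C, hC⟩ := Orb.per_bdd L (hG.smooth.continuous_iteratedFDeriv (m := j)
    (by exact_mod_cast le_top)) (fun i => hper _ (p1 i)) (hper _ p2) (hper _ p3)
  exact ⟨C, by rintro _ ⟨p, rfl⟩; exact hC p⟩

/-- a `C^r` norm -/
def cnm (K : ℝ) (hK : 1 ≤ K) (r : ℕ) : L.SmNorm where
  nm G := K * ∑ j ∈ Finset.range (r + 1), ⨆ p, ‖iteratedFDeriv ℝ j (fun p : E × ℝ => G p.1 p.2) p‖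
  sup_le := by
    intro G hG x t
    have h1 : |G x t| ≤ ⨆ p, ‖iteratedFDeriv ℝ 0 (fun p : E × ℝ => G p.1 p.2) p‖ := by
      refine le_trans (le_of_eq ?_) (le_ciSup (sm_bdd L hG 0) (x, t))
      rw [norm_iteratedFDeriv_zero, Real.norm_eq_abs]
    have h2 : (⨆ p, ‖iteratedFDeriv ℝ 0 (fun p : E × ℝ => G p.1 p.2) p‖) ≤
        ∑ j ∈ Finset.range (r + 1), ⨆ p, ‖iteratedFDeriv ℝ j (fun p : E × ℝ => G p.1 p.2) p‖ :=
      Finset.single_le_sum (f := fun j => ⨆ p, ‖iteratedFDeriv ℝ j (fun p : E × ℝ => G p.1 p.2) p‖)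
        (fun j _ => Real.iSup_nonneg fun p => norm_nonneg _) (by simp)
    have h3 : 0 ≤ ∑ j ∈ Finset.range (r + 1),
        ⨆ p, ‖iteratedFDeriv ℝ j (fun p : E × ℝ => G p.1 p.2) p‖ :=
      Finset.sum_nonneg fun j _ => Real.iSup_nonneg fun p => norm_nonneg _
    nlinarith
  add_le := by
    intro G G' hG hG'
    rw [← mul_add, ← Finset.sum_add_distrib]
    refine mul_le_mul_of_nonneg_left (Finset.sum_le_sum fun j _ => ?_) (by linarith)
    refine ciSup_le fun p => ?_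
    have e : iteratedFDeriv ℝ j (fun p : E × ℝ => G p.1 p.2 + G' p.1 p.2) p =
        iteratedFDeriv ℝ j (fun p : E × ℝ => G p.1 p.2) p +
          iteratedFDeriv ℝ j (fun p : E × ℝ => G' p.1 p.2) p :=
      fun_iteratedFDeriv_add_apply (hG.smooth.of_le (by exact_mod_cast le_top)).contDiffAt
        (hG'.smooth.of_le (by exact_mod_cast le_top)).contDiffAt
    rw [e]
    exact (norm_add_le _ _).trans (add_le_add (le_ciSup (sm_bdd L hG j) p)
      (le_ciSup (sm_bdd L hG' j) p))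
  smul_le := by
    intro c G hG
    rw [mul_left_comm |c| K, Finset.mul_sum (a := |c|)]
    refine mul_le_mul_of_nonneg_left (Finset.sum_le_sum fun j _ => ?_) (by linarith)
    refine ciSup_le fun p => ?_
    have e : iteratedFDeriv ℝ j (fun p : E × ℝ => c * G p.1 p.2) p =
        c • iteratedFDeriv ℝ j (fun p : E × ℝ => G p.1 p.2) p := by
      have e0 : (fun p : E × ℝ => c * G p.1 p.2) = c • (fun p : E × ℝ => G p.1 p.2) := rfl
      rw [e0]
      exact iteratedFDeriv_const_smul_apply (hG.smooth.of_le (by exact_mod_cast le_top)).contDiffAt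
    rw [e, norm_smul, Real.norm_eq_abs]
    exact mul_le_mul_of_nonneg_left (le_ciSup (sm_bdd L hG j) p) (abs_nonneg _)

/-- smallness of the transported perturbation -/
lemma unc_small (T : E ≃L[ℝ] E) (c : ℝ) (l : ℕ) (r : ℕ) : ∃ N : L.SmNorm, ∀ G, L.IsSm G →
    ∀ j ≤ r, ∀ p, ‖iteratedFDeriv ℝ j (unc T c l L.g G) p‖ ≤ N.nm G := by
  set K : ℝ := 1 + ∑ j ∈ Finset.range (r + 1), |c⁻¹| * ‖shear T l L.g‖ ^ j with hK
  have hsum : ∀ j ≤ r, |c⁻¹| * ‖shear T l L.g‖ ^ j ≤ K := by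
    intro j hj
    have := Finset.single_le_sum (f := fun j => |c⁻¹| * ‖shear T l L.g‖ ^ j)
      (s := Finset.range (r + 1)) (fun j _ => by positivity) (Finset.mem_range.2 (Nat.lt_succ_of_le hj))
    linarith
  have hK1 : 1 ≤ K := by
    have : 0 ≤ ∑ j ∈ Finset.range (r + 1), |c⁻¹| * ‖shear T l L.g‖ ^ j :=
      Finset.sum_nonneg fun j _ => by positivity
    linarith
  refine ⟨cnm L K hK1 r, fun G hG j hj p => ?_⟩
  have hsm : ContDiff ℝ j (fun p : E × ℝ => G p.1 p.2) :=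
    hG.smooth.of_le (by exact_mod_cast le_top)
  have e1 : iteratedFDeriv ℝ j (unc T c l L.g G) p =
      c⁻¹ • iteratedFDeriv ℝ j ((fun p : E × ℝ => G p.1 p.2) ∘ shear T l L.g) p := by
    have e0 : unc T c l L.g G = c⁻¹ • ((fun p : E × ℝ => G p.1 p.2) ∘ shear T l L.g) := unc_eq _ _ _ _ _
    rw [e0]
    exact iteratedFDeriv_const_smul_apply (hsm.comp (shear T l L.g).contDiff).contDiffAt
  have e2 := (shear T l L.g).iteratedFDeriv_comp_right hsm p le_rfl
  rw [e1, e2, norm_smul, Real.norm_eq_abs]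
  have h1 : ‖(iteratedFDeriv ℝ j (fun p : E × ℝ => G p.1 p.2)
      (shear T l L.g p)).compContinuousLinearMap fun _ => shear T l L.g‖ ≤
      ‖iteratedFDeriv ℝ j (fun p : E × ℝ => G p.1 p.2) (shear T l L.g p)‖ * ‖shear T l L.g‖ ^ j := by
    refine (ContinuousMultilinearMap.norm_compContinuousLinearMap_le _ _).trans ?_
    simp
  have h2 : ‖iteratedFDeriv ℝ j (fun p : E × ℝ => G p.1 p.2) (shear T l L.g p)‖ ≤
      ∑ j ∈ Finset.range (r + 1), ⨆ p, ‖iteratedFDeriv ℝ j (fun p : E × ℝ => G p.1 p.2) p‖ :=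
    (le_ciSup (sm_bdd L hG j) (shear T l L.g p)).trans
      (Finset.single_le_sum (f := fun j => ⨆ p, ‖iteratedFDeriv ℝ j (fun p : E × ℝ => G p.1 p.2) p‖)
        (fun j _ => Real.iSup_nonneg fun p => norm_nonneg _)
        (Finset.mem_range.2 (Nat.lt_succ_of_le hj)))
  calc _ ≤ |c⁻¹| * (‖iteratedFDeriv ℝ j (fun p : E × ℝ => G p.1 p.2) (shear T l L.g p)‖ *
        ‖shear T l L.g‖ ^ j) := mul_le_mul_of_nonneg_left h1 (abs_nonneg _)
    _ = (|c⁻¹| * ‖shear T l L.g‖ ^ j) *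
        ‖iteratedFDeriv ℝ j (fun p : E × ℝ => G p.1 p.2) (shear T l L.g p)‖ := by ring
    _ ≤ K * ∑ j ∈ Finset.range (r + 1), ⨆ p, ‖iteratedFDeriv ℝ j (fun p : E × ℝ => G p.1 p.2) p‖ :=
        mul_le_mul (hsum j hj) h2 (norm_nonneg _) (by linarith)

end ModuleT

end Esc
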