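import Pool.Agent.helper33.Esc.Defs
import Pool.Agent.helper42.TonODE

/-!
Newton equations with bounded Lipschitz force: solution curves, uniqueness, action identities.
-/

noncomputable section

set_option linter.unusedSectionVars false

namespace Esc

namespace Orb

open Set Filter Topology MeasureTheory intervalIntegral
open scoped NNReal RealInnerProductSpace

variable {E : Type*} [NormedAddCommGroup E] [InnerProductSpace ℝ E] [FiniteDimensional ℝ E]

/-- regularity package for a potential `f` with gradient `g` -/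
structure Reg (f : E → ℝ → ℝ) (g : E → ℝ → E) (M M0 : ℝ) : Prop where
  grad : ∀ x t, HasFDerivAt (fun y => f y t) (innerSL ℝ (g x t)) x
  lip : ∀ x y t, ‖g x t - g y t‖ ≤ M * ‖x - y‖
  bdd : ∀ x t, ‖g x t‖ ≤ M0
  fbdd : ∀ x t, |f x t| ≤ M0
  fcont : Continuous (fun q : E × ℝ => f q.1 q.2)
  gC1 : ContDiff ℝ 1 (fun q : E × ℝ => g q.1 q.2)
  M_nonneg : 0 ≤ M

variable {f : E → ℝ → ℝ} {g : E → ℝ → E} {M M0 : ℝ}

/-- quadratic Taylor bound -/
lemma Reg.taylor (h : Reg f g M M0) (x y : E) (t : ℝ) :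
    |f y t - f x t - ⟪g x t, y - x⟫| ≤ M * ‖y - x‖ ^ 2 := by
  have hconv : Convex ℝ (segment ℝ x y) := convex_segment x y
  have := hconv.norm_image_sub_le_of_norm_hasFDerivWithin_le' (f := fun z => f z t)
    (f' := fun z => innerSL ℝ (g z t)) (φ := innerSL ℝ (g x t)) (C := M * ‖y - x‖)
    (fun z _ => (h.grad z t).hasFDerivWithinAt) (fun z hz => by
      rw [← map_sub, innerSL_apply_norm]
      refine (h.lip z x t).trans (mul_le_mul_of_nonneg_left ?_ h.M_nonneg)
      obtain ⟨a, b, ha, hb, hab, rfl⟩ := hz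
      have : a • x + b • y - x = b • (y - x) := by
        have : a = 1 - b := by linarith
        rw [this, smul_sub, sub_smul, one_smul]; abel
      rw [this, norm_smul, Real.norm_eq_abs, abs_of_nonneg hb]
      have hb1 : b ≤ 1 := by linarith
      nlinarith [norm_nonneg (y - x)])
    (left_mem_segment ℝ x y) (right_mem_segment ℝ x y)
  rw [Real.norm_eq_abs, innerSL_apply_apply] at this
  calc _ ≤ _ := this
    _ = _ := by ring

/-- solution curves of `x'' = g (x, t)` -/
def Sol (g : E → ℝ → E) (x p : ℝ → E) : Prop :=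
  (∀ t, HasDerivAt x (p t) t) ∧ ∀ t, HasDerivAt p (g (x t) t) t

lemma Sol.continuous_x {x p : ℝ → E} (h : Sol g x p) : Continuous x :=
  continuous_iff_continuousAt.2 fun t => (h.1 t).continuousAt

lemma Sol.continuous_p {x p : ℝ → E} (h : Sol g x p) : Continuous p :=
  continuous_iff_continuousAt.2 fun t => (h.2 t).continuousAt

/-- vector field on `E × E` -/
def vf (g : E → ℝ → E) (t : ℝ) (w : E × E) : E × E := (w.2, g w.1 t)

lemma Reg.vf_lip (h : Reg f g M M0) : ∀ t, LipschitzWith (Real.toNNReal (M + 1)) (vf g t) := by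
  intro t
  refine LipschitzWith.of_dist_le_mul fun w w' => ?_
  have hM := h.M_nonneg
  rw [Real.coe_toNNReal _ (by linarith), dist_eq_norm, dist_eq_norm]
  have h1 : ‖w.2 - w'.2‖ ≤ ‖w - w'‖ := norm_snd_le (w - w')
  have h2 : ‖w.1 - w'.1‖ ≤ ‖w - w'‖ := norm_fst_le (w - w')
  have h3 := h.lip w.1 w'.1 t
  have h4 : 0 ≤ ‖w - w'‖ := norm_nonneg _
  simp only [vf, Prod.mk_sub_mk]
  rw [Prod.norm_def]
  apply max_le
  · simp only; nlinarith
  · simp only; nlinarith [mul_le_mul_of_nonneg_left h2 hM]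

lemma Reg.exists_sol (h : Reg f g M M0) (a : ℝ) (z q : E) :
    ∃ x p : ℝ → E, Sol g x p ∧ x a = z ∧ p a = q := by
  have hC : ContDiff ℝ 1 (fun w : (E × E) × ℝ => vf g w.2 w.1) := by
    refine (contDiff_fst.snd).prodMk ?_
    exact h.gC1.comp (contDiff_fst.fst.prodMk contDiff_snd)
  obtain ⟨γ, h0, hγ⟩ := Ton.global_exists (vf g) _ h.vf_lip hC a (z, q)
  refine ⟨fun t => (γ t).1, fun t => (γ t).2, ⟨fun t => ?_, fun t => ?_⟩, by simp [h0], by simp [h0]⟩
  · exact ((ContinuousLinearMap.fst ℝ E E).hasFDerivAt (x := γ t)).comp_hasDerivAt t (hγ t)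
  · exact ((ContinuousLinearMap.snd ℝ E E).hasFDerivAt (x := γ t)).comp_hasDerivAt t (hγ t)

lemma Reg.sol_unique (h : Reg f g M M0) {x p y q : ℝ → E} (h1 : Sol g x p) (h2 : Sol g y q)
    {a : ℝ} (hx : x a = y a) (hp : p a = q a) : x = y ∧ p = q := by
  have key : (fun t => (x t, p t)) = fun t => (y t, q t) := by
    refine ODE_solution_unique_univ (v := vf g) (s := fun _ => univ) (K := Real.toNNReal (M + 1))
      (t₀ := a) (fun t => (h.vf_lip t).lipschitzOnWith)
      (fun t => ⟨(h1.1 t).prodMk (h1.2 t), mem_univ _⟩)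
      (fun t => ⟨(h2.1 t).prodMk (h2.2 t), mem_univ _⟩) ?_
    simp [hx, hp]
  exact ⟨funext fun t => congrArg Prod.fst (congrFun key t),
    funext fun t => congrArg Prod.snd (congrFun key t)⟩


/-! ### Controls -/

lemma _root_.Esc.Adm.oii {u : ℝ → E} (hu : Adm u) (a b : ℝ) :
    IntervalIntegrable u volume a b := by
  obtain ⟨hm, C, hC⟩ := hu
  refine (intervalIntegrable_const (c := C) (μ := volume) (a := a) (b := b)).mono_fun
    hm.aestronglyMeasurable (Eventually.of_forall fun t => ?_)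
  exact (hC t).trans (le_abs_self C)

lemma _root_.Esc.Adm.onb {u : ℝ → E} (hu : Adm u) : ∃ C : ℝ, 0 ≤ C ∧ ∀ t, ‖u t‖ ≤ C := by
  obtain ⟨hm, C, hC⟩ := hu
  exact ⟨C, (norm_nonneg _).trans (hC 0), hC⟩

lemma _root_.Esc.Adm.oli {u : ℝ → E} (hu : Adm u) : LocallyIntegrable u volume := by
  obtain ⟨hm, C, hC⟩ := hu
  refine (locallyIntegrable_const C).mono hm.aestronglyMeasurable (Eventually.of_forall fun t => ?_)
  exact (hC t).trans (le_abs_self C)

lemma _root_.Esc.Adm.osq {u : ℝ → E} (hu : Adm u) (a b : ℝ) :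
    IntervalIntegrable (fun t => ‖u t‖ ^ 2) volume a b := by
  obtain ⟨hm, C, hC⟩ := hu
  refine (intervalIntegrable_const (c := C ^ 2) (μ := volume) (a := a) (b := b)).mono_fun
    (hm.norm.pow 2).aestronglyMeasurable (Eventually.of_forall fun t => ?_)
  simp only [Real.norm_eq_abs]
  rw [abs_of_nonneg (by positivity), abs_of_nonneg (by positivity)]
  exact pow_le_pow_left₀ (norm_nonneg _) (hC t) 2

lemma ctrl_of_continuousOn_indicator {p : ℝ → E} (hp : Continuous p) (a b : ℝ) :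
    Adm ((Icc a b).indicator p) := by
  refine ⟨hp.stronglyMeasurable.indicator measurableSet_Icc, ?_⟩
  obtain ⟨C, hC⟩ := (isCompact_Icc (a := a) (b := b)).exists_bound_of_continuousOn hp.continuousOn
  refine ⟨max C 0, fun t => ?_⟩
  by_cases ht : t ∈ Icc a b
  · rw [indicator_of_mem ht]; exact (hC t ht).trans (le_max_left _ _)
  · rw [indicator_of_notMem ht, norm_zero]; exact le_max_right _ _

lemma _root_.Esc.Adm.oadd {u w : ℝ → E} (hu : Adm u) (hw : Adm w) : Adm (fun t => u t + w t) := by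
  obtain ⟨hm, C, hC⟩ := hu
  obtain ⟨hm', C', hC'⟩ := hw
  exact ⟨hm.add hm', C + C', fun t => (norm_add_le _ _).trans (add_le_add (hC t) (hC' t))⟩

lemma _root_.Esc.Adm.oconst (c : E) : Adm (fun _ : ℝ => c) := ⟨stronglyMeasurable_const, ‖c‖, fun _ => le_rfl⟩

lemma traj_lip {u : ℝ → E} (hu : Adm u) {C : ℝ} (hC : ∀ t, ‖u t‖ ≤ C) (z : E) (a s t : ℝ) :
    ‖traj a z u s - traj a z u t‖ ≤ C * |s - t| := by
  have : traj a z u s - traj a z u t = ∫ r in t..s, u r := by
    simp only [traj]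
    rw [add_sub_add_left_eq_sub]
    exact integral_interval_sub_left (hu.oii _ _) (hu.oii _ _)
  rw [this]
  exact norm_integral_le_of_norm_le_const fun r _ => hC r

lemma traj_continuous {u : ℝ → E} (hu : Adm u) (z : E) (a : ℝ) : Continuous (traj a z u) := by
  obtain ⟨C, hC0, hC⟩ := hu.onb
  refine (LipschitzWith.of_dist_le_mul (K := ⟨C, hC0⟩) fun s t => ?_).continuous
  rw [dist_eq_norm, Real.dist_eq]
  exact traj_lip hu hC z a s t

@[simp] lemma traj_self (z : E) (a : ℝ) (u : ℝ → E) : traj a z u a = z := by simp [traj]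

lemma traj_ae {u : ℝ → E} (hu : Adm u) (z : E) (a : ℝ) :
    ∀ᵐ t, HasDerivAt (traj a z u) (u t) t := by
  filter_upwards [LocallyIntegrable.ae_hasDerivAt_integral hu.oli] with t ht
  exact (ht a).const_add z

/-- fundamental theorem of calculus for Lipschitz functions -/
lemma ftc_lip {h h' : ℝ → ℝ} {a b K : ℝ} (hl : ∀ s ∈ uIcc a b, ∀ t ∈ uIcc a b,
    |h s - h t| ≤ K * |s - t|) (hd : ∀ᵐ t, t ∈ uIcc a b → HasDerivAt h (h' t) t) :
    ∫ t in a..b, h' t = h b - h a := by
  have hK : LipschitzOnWith (Real.toNNReal K) h (uIcc a b) := by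
    refine LipschitzOnWith.of_dist_le_mul fun s hs t ht => ?_
    rw [Real.dist_eq, Real.dist_eq]
    exact (hl s hs t ht).trans (mul_le_mul_of_nonneg_right (Real.le_coe_toNNReal K) (abs_nonneg _))
  rw [← hK.absolutelyContinuousOnInterval.integral_deriv_eq_sub]
  refine integral_congr_ae ?_
  filter_upwards [hd] with t ht hmem
  exact (ht (uIoc_subset_uIcc hmem)).deriv.symm

lemma Sol.lip_p {x p : ℝ → E} (h : Reg f g M M0) (hs : Sol g x p) (s t : ℝ) :
    ‖p s - p t‖ ≤ M0 * |s - t| := by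
  have := Convex.norm_image_sub_le_of_norm_hasDerivWithin_le (f := p) (f' := fun t => g (x t) t)
    (s := univ) (x := t) (y := s) (C := M0) (fun r _ => (hs.2 r).hasDerivWithinAt)
    (fun r _ => h.bdd _ _) convex_univ (mem_univ _) (mem_univ _)
  simpa [Real.norm_eq_abs] using this

lemma Sol.lip_x {x p : ℝ → E} (hs : Sol g x p) {a b B : ℝ} (hB : ∀ t ∈ uIcc a b, ‖p t‖ ≤ B)
    {s t : ℝ} (hs' : s ∈ uIcc a b) (ht : t ∈ uIcc a b) :
    ‖x s - x t‖ ≤ B * |s - t| := by
  have := Convex.norm_image_sub_le_of_norm_hasDerivWithin_le (f := x) (f' := p)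
    (s := uIcc a b) (x := t) (y := s) (C := B) (fun r _ => (hs.1 r).hasDerivWithinAt)
    (fun r hr => hB r hr) (convex_uIcc a b) ht hs'
  simpa [Real.norm_eq_abs] using this

/-- integration by parts -/
lemma parts (h : Reg f g M M0) {x p : ℝ → E} (hs : Sol g x p) {u : ℝ → E} (hu : Adm u)
    (z : E) (a c b : ℝ) :
    ∫ t in a..b, (⟪g (x t) t, traj c z u t - x t⟫ + ⟪p t, u t - p t⟫) =
      ⟪p b, traj c z u b - x b⟫ - ⟪p a, traj c z u a - x a⟫ := by
  obtain ⟨C, hC0, hC⟩ := hu.onb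
  obtain ⟨B, hB⟩ := (isCompact_uIcc (a := a) (b := b)).exists_bound_of_continuousOn
    hs.continuous_p.continuousOn
  obtain ⟨B2, hB2⟩ := (isCompact_uIcc (a := a) (b := b)).exists_bound_of_continuousOn
    ((traj_continuous hu z c).sub hs.continuous_x).continuousOn
  refine ftc_lip (h := fun t => ⟪p t, traj c z u t - x t⟫) (K := M0 * B2 + B * (C + B)) ?_ ?_
  · intro s hs' t ht
    have e : ⟪p s, traj c z u s - x s⟫ - ⟪p t, traj c z u t - x t⟫ =
        ⟪p s - p t, traj c z u s - x s⟫ +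
          ⟪p t, (traj c z u s - traj c z u t) - (x s - x t)⟫ := by
      simp only [inner_sub_left, inner_sub_right]; ring
    rw [e]
    refine (abs_add_le _ _).trans ?_
    have h1 := abs_real_inner_le_norm (p s - p t) (traj c z u s - x s)
    have h2 := abs_real_inner_le_norm (p t) ((traj c z u s - traj c z u t) - (x s - x t))
    have h3 := hs.lip_p h s t
    have h4 := hB2 s hs'
    have h5 := hB t ht
    have h6 := hs.lip_x hB hs' ht
    have h7 := traj_lip hu hC z c s t
    have h8 := norm_sub_le (traj c z u s - traj c z u t) (x s - x t)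
    have h9 : 0 ≤ |s - t| := abs_nonneg _
    have hM0 : 0 ≤ M0 := (norm_nonneg _).trans (h.bdd 0 0)
    have h10 : ‖p s - p t‖ * ‖traj c z u s - x s‖ ≤ (M0 * |s - t|) * B2 :=
      mul_le_mul h3 h4 (norm_nonneg _) (by positivity)
    have h11 : ‖p t‖ * ‖(traj c z u s - traj c z u t) - (x s - x t)‖ ≤
        B * (C * |s - t| + B * |s - t|) :=
      mul_le_mul h5 (h8.trans (add_le_add h7 h6)) (norm_nonneg _) ((norm_nonneg _).trans h5)
    nlinarith
  · filter_upwards [traj_ae hu z c] with t ht _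
    have := (hs.2 t).inner ℝ (ht.sub (hs.1 t))
    rw [add_comm]
    exact this


/-- Cauchy-Schwarz -/
lemma cs {w : ℝ → E} {a b : ℝ} (hab : a ≤ b) (hw : IntervalIntegrable w volume a b)
    (hw2 : IntervalIntegrable (fun t => ‖w t‖ ^ 2) volume a b) :
    ‖∫ t in a..b, w t‖ ^ 2 ≤ (b - a) * ∫ t in a..b, ‖w t‖ ^ 2 := by
  rcases hab.eq_or_lt with rfl | hab'
  · simp
  set c : E := ∫ t in a..b, w t with hc
  have hpos : 0 < b - a := by linarith
  set d : E := (b - a)⁻¹ • c with hd
  have h1 : 0 ≤ ∫ t in a..b, (‖w t‖ ^ 2 - 2 * ⟪d, w t⟫ + ‖d‖ ^ 2) := by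
    refine intervalIntegral.integral_nonneg hab fun t _ => ?_
    have := sq_nonneg ‖w t - d‖
    rw [norm_sub_sq_real, real_inner_comm] at this
    linarith
  have hi : IntervalIntegrable (fun t => ⟪d, w t⟫) volume a b :=
    ⟨(innerSL ℝ d).integrable_comp hw.1, (innerSL ℝ d).integrable_comp hw.2⟩
  have h2 : ∫ t in a..b, ⟪d, w t⟫ = ⟪d, c⟫ :=
    (innerSL ℝ d).intervalIntegral_comp_comm hw
  rw [intervalIntegral.integral_add (hw2.sub (hi.const_mul 2)) intervalIntegrable_const,
    intervalIntegral.integral_sub hw2 (hi.const_mul 2), intervalIntegral.integral_const_mul, h2,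
    intervalIntegral.integral_const] at h1
  have h3 : ⟪d, c⟫ = (b - a)⁻¹ * ‖c‖ ^ 2 := by
    rw [hd, real_inner_smul_left, real_inner_self_eq_norm_sq]
  have h4 : ‖d‖ ^ 2 = ((b - a)⁻¹) ^ 2 * ‖c‖ ^ 2 := by
    rw [hd, norm_smul, mul_pow, Real.norm_eq_abs, sq_abs]
  rw [h3, h4, smul_eq_mul] at h1
  have h5 : (b - a) * (((b - a)⁻¹) ^ 2 * ‖c‖ ^ 2) = (b - a)⁻¹ * ‖c‖ ^ 2 := by
    field_simp
  rw [h5] at h1
  have h6 : (b - a)⁻¹ * ‖c‖ ^ 2 ≤ ∫ t in a..b, ‖w t‖ ^ 2 := by linarith
  calc ‖c‖ ^ 2 = (b - a) * ((b - a)⁻¹ * ‖c‖ ^ 2) := by field_simp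
    _ ≤ _ := mul_le_mul_of_nonneg_left h6 hpos.le

/-- action of a solution -/
def A0 (f : E → ℝ → ℝ) (x p : ℝ → E) (a b : ℝ) : ℝ := ∫ t in a..b, (‖p t‖ ^ 2 / 2 + f (x t) t)

lemma Reg.cont_along (h : Reg f g M M0) {x : ℝ → E} (hx : Continuous x) :
    Continuous (fun t => f (x t) t) :=
  h.fcont.comp (hx.prodMk continuous_id)

lemma Reg.gcont_along (h : Reg f g M M0) {x : ℝ → E} (hx : Continuous x) :
    Continuous (fun t => g (x t) t) :=
  h.gC1.continuous.comp (hx.prodMk continuous_id)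

/-- remainder of the Taylor expansion along a curve -/
def rem (f : E → ℝ → ℝ) (g : E → ℝ → E) (x y : ℝ → E) (t : ℝ) : ℝ :=
  f (y t) t - f (x t) t - ⟪g (x t) t, y t - x t⟫

lemma Reg.rem_cont (h : Reg f g M M0) {x y : ℝ → E} (hx : Continuous x) (hy : Continuous y) :
    Continuous (rem f g x y) :=
  ((h.cont_along hy).sub (h.cont_along hx)).sub ((h.gcont_along hx).inner (hy.sub hx))

/-- the exact expansion of the action around a solution -/
lemma act_eq (h : Reg f g M M0) {x p : ℝ → E} (hs : Sol g x p) {u : ℝ → E} (hu : Adm u)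
    (z : E) (a b : ℝ) :
    act f 0 a b z u = A0 f x p a b + (⟪p b, traj a z u b - x b⟫ - ⟪p a, z - x a⟫) +
      (∫ t in a..b, ‖u t - p t‖ ^ 2 / 2) + ∫ t in a..b, rem f g x (traj a z u) t := by
  have h1 := parts h hs hu z a a b
  rw [traj_self] at h1
  rw [← h1]
  have hcp := hs.continuous_p
  have hcx := hs.continuous_x
  have hct := traj_continuous hu z a
  have i1 : IntervalIntegrable (fun t => ‖p t‖ ^ 2 / 2 + f (x t) t) volume a b :=
    (((hcp.norm.pow 2).div_const 2).add (h.cont_along hcx)).intervalIntegrable _ _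
  have iu := hu.oii a b
  have i2 : IntervalIntegrable (fun t => ⟪p t, u t⟫) volume a b := by
    obtain ⟨B, hB⟩ := (isCompact_uIcc (a := a) (b := b)).exists_bound_of_continuousOn
      hcp.continuousOn
    obtain ⟨C, hC0, hC⟩ := hu.onb
    rw [intervalIntegrable_iff]
    refine Measure.integrableOn_of_bounded (M := B * C) (by simp) ?_ ?_
    · exact (hcp.aestronglyMeasurable.inner hu.1.aestronglyMeasurable)
    · refine (ae_restrict_iff' measurableSet_uIoc).2 (Eventually.of_forall fun t ht => ?_)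
      have h5 := hB t (uIoc_subset_uIcc ht)
      exact (norm_inner_le_norm _ _).trans
        (mul_le_mul h5 (hC t) (norm_nonneg _) ((norm_nonneg _).trans h5))
  have i3 : IntervalIntegrable (fun t => ⟪g (x t) t, traj a z u t - x t⟫ + ⟪p t, u t - p t⟫)
      volume a b := by
    refine (((h.gcont_along hcx).inner (hct.sub hcx)).intervalIntegrable _ _).add ?_
    have : (fun t => ⟪p t, u t - p t⟫) = fun t => ⟪p t, u t⟫ - ⟪p t, p t⟫ := by
      funext t; rw [inner_sub_right]
    rw [this]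
    exact i2.sub ((hcp.inner hcp).intervalIntegrable _ _)
  have i4 : IntervalIntegrable (fun t => ‖u t - p t‖ ^ 2 / 2) volume a b := by
    have : (fun t => ‖u t - p t‖ ^ 2 / 2) = fun t => ‖u t‖ ^ 2 / 2 - ⟪p t, u t⟫ + ‖p t‖ ^ 2 / 2 := by
      funext t
      rw [norm_sub_sq_real, real_inner_comm]; ring
    rw [this]
    exact (((hu.osq a b).div_const 2).sub i2).add
      (((hcp.norm.pow 2).div_const 2).intervalIntegrable _ _)
  have i5 : IntervalIntegrable (rem f g x (traj a z u)) volume a b :=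
    (h.rem_cont hcx hct).intervalIntegrable _ _
  rw [A0, ← intervalIntegral.integral_add i1 i3, ← intervalIntegral.integral_add (i1.add i3) i4,
    ← intervalIntegral.integral_add ((i1.add i3).add i4) i5, act]
  refine intervalIntegral.integral_congr fun t _ => ?_
  simp only [rem, sub_zero]
  rw [norm_sub_sq_real, inner_sub_right (p t), real_inner_self_eq_norm_sq, real_inner_comm (p t) (u t)]
  ring

end Orb

end Esc
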