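import Pool.Agent.helper33.Esc.Open
import Pool.Agent.helper33.Esc.Bump

/-!
G-DEC: approximate decoupling at a given speed is open and dense.
-/

noncomputable section

set_option linter.unusedSectionVars false

namespace Esc

open MeasureTheory Set Filter Topology
open scoped ContDiff
open H33

/-! ### Abstract lemmas on min-plus kernels -/

section abstract

variable {Y : Type*} [PseudoMetricSpace Y] {K : Y → Y → ℝ} {C A : Set Y} {B Λ : ℝ}

/-- if the average of finitely many kernels is smaller than `K - τ`, the critical value of one of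
them is larger -/
lemma DecA.al_increase (h : KD K C A B Λ) {ι : Type*} (I : Finset ι) (hI : I.Nonempty)
    {Ks : ι → Y → Y → ℝ} (hK : ∀ k ∈ I, KD (Ks k) C A B Λ) {τ : ℝ} (hτ : 0 < τ)
    (H : ∀ z ∈ A, ∀ z' ∈ A, (∑ k ∈ I, Ks k z z') / I.card ≤ K z z' - τ) :
    ∃ k ∈ I, al K C < al (Ks k) C := by
  by_contra hcon
  push Not at hcon
  obtain ⟨T, hT⟩ := exists_nat_gt (8 * B / τ + 1)
  have hB := h.B_nonneg
  have hT1 : 1 ≤ T := by
    have : (1:ℝ) ≤ T := by
      have : 0 ≤ 8 * B / τ := by positivity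
      linarith
    exact_mod_cast this
  have hTτ : 8 * B < T * τ := by
    have : 8 * B / τ < T := by linarith
    rwa [div_lt_iff₀ hτ] at this
  obtain ⟨z, hz⟩ := h.ne
  have hzA := h.sub hz
  obtain ⟨x, hx, hc⟩ := exists_path h hT1 hzA hzA
  have hxA : ∀ i ≤ T, x i ∈ A := fun i hi => by
    rcases Nat.eq_zero_or_pos i with h0 | h0
    · rw [h0, hx.1]; exact hzA
    · rcases hi.lt_or_eq with h3 | h3
      · exact h.sub (hx.2.2 i h0 h3)
      · rw [h3, hx.2.1]; exact hzA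
  have hcardpos : (0:ℝ) < I.card := by exact_mod_cast hI.card_pos
  have h1 : ∀ k ∈ I, - al K C * T - 4 * B ≤ cost (Ks k) x T := by
    intro k hk
    have e1 := kp_le_cost (hK k hk) hT1 hxA
    rw [hx.1, hx.2.1] at e1
    have e2 := (abs_le.1 (al_spec (hK k hk) hT1 hzA hzA)).1
    have e3 := mul_le_mul_of_nonneg_right (hcon k hk) (Nat.cast_nonneg T : (0:ℝ) ≤ T)
    linarith
  have h2 := Finset.sum_le_sum h1
  rw [Finset.sum_const, nsmul_eq_mul] at h2
  have h3 : ∑ k ∈ I, cost (Ks k) x T ≤ I.card * (cost K x T - T * τ) := by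
    unfold cost
    rw [Finset.sum_comm, show (T:ℝ) * τ = ∑ i ∈ Finset.range T, τ by simp,
      ← Finset.sum_sub_distrib, Finset.mul_sum]
    refine Finset.sum_le_sum fun i hi => ?_
    rw [Finset.mem_range] at hi
    have := H (x i) (hxA i hi.le) (x (i + 1)) (hxA (i + 1) hi)
    rw [div_le_iff₀ hcardpos] at this
    linarith
  have h4 := (abs_le.1 (al_spec h hT1 hzA hzA)).2
  rw [← hc] at h4
  have h5 : (I.card : ℝ) * (- al K C * T - 4 * B) ≤ I.card * (cost K x T - T * τ) := h2.trans h3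
  have h6 := le_of_mul_le_mul_left h5 hcardpos
  linarith

/-- a long minimal path for `K'` has to visit the set outside of which `K ≤ K'`, if `al K' > al K` -/
lemma DecA.visit {K' : Y → Y → ℝ} (h : KD K C A B Λ) (h' : KD K' C A B Λ) {V : Set Y}
    (hV : ∀ z ∈ A, ∀ z' ∈ A, z ∉ V → z' ∉ V → K z z' ≤ K' z z') {T : ℕ} (hT : 1 ≤ T) {x : ℕ → Y}
    (hx : ∀ i ≤ T, x i ∈ A) (hmin : cost K' x T ≤ kp K' C T (x 0) (x T)) {i j : ℕ} (hij : i < j)
    (hj : j ≤ T) (hlong : 16 * B < (al K' C - al K C) * ((j : ℝ) - i)) :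
    ∃ t, i ≤ t ∧ t ≤ j ∧ x t ∈ V := by
  by_contra hcon
  push Not at hcon
  have hB := h.B_nonneg
  have hlow : ∀ (a n : ℕ), a + n ≤ T → - al K' C * n - 4 * B ≤ cost K' (fun k => x (a + k)) n := by
    intro a n han
    rcases Nat.eq_zero_or_pos n with h0 | h0
    · subst h0
      simp [cost]
      linarith
    · have e1 := kp_le_cost h' (T := n) h0 (x := fun k => x (a + k)) (fun k hk => hx _ (by omega))
      have e2 := (abs_le.1 (al_spec h' h0 (hx (a + 0) (by omega)) (hx (a + n) han))).1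
      linarith
  have e1 : cost K' x T = cost K' x i + cost K' (fun k => x (i + k)) (j - i) +
      cost K' (fun k => x (j + k)) (T - j) := by
    have a1 : T = j + (T - j) := by omega
    have a2 : j = i + (j - i) := by omega
    conv_lhs => rw [a1, cost_add]
    congr 1
    conv_lhs => rw [a2, cost_add]
  have b1 := hlow 0 i (by omega)
  simp only [zero_add] at b1
  have b3 := hlow j (T - j) (by omega)
  have b2 : - al K C * ((j - i : ℕ) : ℝ) - 4 * B ≤ cost K' (fun k => x (i + k)) (j - i) := by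
    have c0 : 1 ≤ j - i := by omega
    have c1 : cost K (fun k => x (i + k)) (j - i) ≤ cost K' (fun k => x (i + k)) (j - i) := by
      unfold cost
      refine Finset.sum_le_sum fun k hk => ?_
      rw [Finset.mem_range] at hk
      exact hV _ (hx _ (by omega)) _ (hx _ (by omega)) (hcon _ (by omega) (by omega))
        (hcon _ (by omega) (by omega))
    have c2 := kp_le_cost h c0 (x := fun k => x (i + k)) (fun k hk => hx _ (by omega))
    have c3 := (abs_le.1 (al_spec h c0 (hx (i + 0) (by omega)) (hx (i + (j - i)) (by omega)))).1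
    linarith
  have b4 := (abs_le.1 (al_spec h' hT (hx 0 (by omega)) (hx T le_rfl))).2
  have c1 : ((j - i : ℕ) : ℝ) = (j : ℝ) - i := by rw [Nat.cast_sub hij.le]
  have c2 : ((T - j : ℕ) : ℝ) = (T : ℝ) - j := by rw [Nat.cast_sub hj]
  rw [c1] at b2
  rw [c2] at b3
  nlinarith

/-- visits to a set on which the barrier is almost constant give a decoupled window -/
lemma DecA.window (h : KD K C A B Λ) {V : Set Y} (hVA : V ⊆ A) {r : ℝ}
    (hr : ∀ x ∈ V, ∀ x' ∈ V, ∀ z ∈ A, |bar K C z x - bar K C z x'| ≤ r ∧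
      |bar K C x z - bar K C x' z| ≤ r)
    (hvis : ∀ S1 : ℕ, ∃ S0 : ℕ, ∀ T ≥ S0, ∀ x : ℕ → Y, (∀ i ≤ T, x i ∈ A) →
      cost K x T = kp K C T (x 0) (x T) → ∃ t, S1 ≤ t ∧ t + S1 ≤ T ∧ x t ∈ V)
    {ε : ℝ} (hε : 0 < ε) :
    ∃ F : Finset ℕ, F.Nonempty ∧ (∀ T ∈ F, 1 ≤ T) ∧ ∀ z ∈ A, ∀ z' ∈ A, ∀ w ∈ A, ∀ w' ∈ A,
      |gk K C F (fun T => al K C * T) z z' + gk K C F (fun T => al K C * T) w w' -
        gk K C F (fun T => al K C * T) z w' - gk K C F (fun T => al K C * T) w z'| ≤ 8 * (ε + r) := by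
  obtain ⟨S1, hS1⟩ := bar_low h hε
  obtain ⟨S0, hS0⟩ := hvis (max S1 1)
  obtain ⟨F, hF, hFS, hFw⟩ := bar_win h hε (max S0 1)
  have hF1 : ∀ T ∈ F, 1 ≤ T := fun T hT => (le_max_right _ _).trans (hFS T hT)
  have key : ∀ z ∈ A, ∀ z' ∈ A, ∃ x ∈ V, bar K C z x + bar K C x z' - 2 * ε ≤
      gk K C F (fun T => al K C * T) z z' := by
    intro z hz z' hz'
    obtain ⟨T, hT, e⟩ := gk_attained (K := K) (C := C) hF (fun T => al K C * T) z z'
    obtain ⟨x, hx, hc⟩ := exists_path h (hF1 T hT) hz hz'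
    have hxA : ∀ i ≤ T, x i ∈ A := fun i hi => by
      rcases Nat.eq_zero_or_pos i with h0 | h0
      · rw [h0, hx.1]; exact hz
      · rcases hi.lt_or_eq with h3 | h3
        · exact h.sub (hx.2.2 i h0 h3)
        · rw [h3, hx.2.1]; exact hz'
    obtain ⟨t, ht1, ht2, htV⟩ := hS0 T ((le_max_left _ _).trans (hFS T hT)) x hxA
      (by rw [hc, hx.1, hx.2.1])
    refine ⟨x t, htV, ?_⟩
    have m1 : S1 ≤ max S1 1 := le_max_left _ _
    have m2 : 1 ≤ max S1 1 := le_max_right _ _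
    have a1 : T = t + (T - t) := by omega
    have e1 : cost K x T = cost K x t + cost K (fun k => x (t + k)) (T - t) := by
      conv_lhs => rw [a1, cost_add]
    have e2 := kp_le_cost h (T := t) (by omega) (x := x) (fun k hk => hxA _ (by omega))
    have e3 := kp_le_cost h (T := T - t) (by omega) (x := fun k => x (t + k))
      (fun k hk => hxA _ (by omega))
    simp only [add_zero] at e3
    rw [show t + (T - t) = T by omega, hx.2.1] at e3
    rw [hx.1] at e2
    have e4 := hS1 t (by omega) (by omega) z hz (x t) (hVA htV)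
    have e5 := hS1 (T - t) (by omega) (by omega) (x t) (hVA htV) z' hz'
    have c2 : ((T - t : ℕ) : ℝ) = (T : ℝ) - t := by rw [Nat.cast_sub (by omega)]
    rw [c2] at e5
    rw [e]
    nlinarith
  obtain ⟨c, hc⟩ := h.ne
  obtain ⟨x0, hx0, -⟩ := key c (h.sub hc) c (h.sub hc)
  have hx0A := hVA hx0
  have key2 : ∀ z ∈ A, ∀ z' ∈ A, |gk K C F (fun T => al K C * T) z z' -
      (bar K C z x0 + bar K C x0 z')| ≤ 2 * (ε + r) := by
    intro z hz z' hz'
    obtain ⟨x, hx, hle⟩ := key z hz z' hz'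
    have r1 := (abs_le.1 (hr x hx x0 hx0 z hz).1).1
    have r2 := (abs_le.1 (hr x hx x0 hx0 z' hz').2).1
    have r0 : 0 ≤ r := (abs_nonneg _).trans (hr x hx x0 hx0 z hz).1
    have w1 := (abs_le.1 (hFw z hz z' hz')).2
    have t1 := bar_tri h hz hx0A hz'
    rw [abs_le]
    constructor
    · linarith
    · linarith
  refine ⟨F, hF, hF1, fun z hz z' hz' w hw w' hw' => ?_⟩
  have k1 := abs_le.1 (key2 z hz z' hz')
  have k2 := abs_le.1 (key2 w hw w' hw')
  have k3 := abs_le.1 (key2 z hz w' hw')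
  have k4 := abs_le.1 (key2 w hw z' hz')
  rw [abs_le]
  constructor <;> linarith [k1.1, k1.2, k2.1, k2.2, k3.1, k3.2, k4.1, k4.2]

/-- the barrier only depends on the kernel rows -/
lemma DecA.bar_red_right (h : KD K C A B Λ) {c z' : Y} (hc : ∀ x ∈ A, K x z' = K x c) {z : Y}
    (hz : z ∈ A) : bar K C z z' = bar K C z c := by
  unfold bar
  congr 1; funext S; congr 1; funext j
  rw [h.kp_red_right hc (S + j) z hz]

lemma DecA.bar_red_left (h : KD K C A B Λ) {c z : Y} (hc : ∀ x ∈ A, K z x = K c x) {z' : Y}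
    (hz' : z' ∈ A) : bar K C z z' = bar K C c z' := by
  unfold bar
  congr 1; funext S; congr 1; funext j
  rw [h.kp_red_left hc hz' (S + j)]

end abstract

variable {d : ℕ} {E : Type*} [NormedAddCommGroup E] [InnerProductSpace ℝ E] [FiniteDimensional ℝ E]
  (L : Lat d E)

/-- the segment kernel at speed `s` is decoupled up to an error `< η` for some finite set of durations -/
def Dec (p s η : ℝ) (f : E → ℝ → ℝ) : Prop :=
  ∃ (F : Finset ℕ) (c : ℕ → ℝ) (η' : ℝ), F.Nonempty ∧ (∀ T ∈ F, 1 ≤ T) ∧ η' < η ∧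
    ∀ z ∈ L.room p, ∀ z' ∈ L.room p, ∀ w ∈ L.room p, ∀ w' ∈ L.room p,
      |L.seg f p s F c z z' + L.seg f p s F c w w' - L.seg f p s F c z w' - L.seg f p s F c w z'| ≤ η'

theorem dec_open {p s η : ℝ} {f : E → ℝ → ℝ} (hf : L.IsPot f) (h : Dec L p s η f) :
    ∃ ρ > 0, ∀ f', L.IsPot f' → (∀ x t, |f x t - f' x t| ≤ ρ) → Dec L p s η f' := by
  obtain ⟨F, c, η', hF, hF1, hη', hd⟩ := h
  have hpos : (0:ℝ) < 4 * ((F.sup id : ℕ) + 1) := by positivity
  refine ⟨(η - η') / 2 / (4 * ((F.sup id : ℕ) + 1)), by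
    have : 0 < (η - η') / 2 := by linarith
    positivity, fun f' hf' hff => ?_⟩
  refine ⟨F, c, (η + η') / 2, hF, hF1, by linarith, fun z hz z' hz' w hw w' hw' => ?_⟩
  have hs : ∀ a ∈ L.room p, ∀ b ∈ L.room p,
      |L.seg f p s F c a b - L.seg f' p s F c a b| ≤ (η - η') / 8 := by
    intro a ha b hb
    refine (seg_sub_le L hf hf' hff s hF hF1 c ha hb).trans ?_
    have e1 : (η - η') / 2 / (4 * ((F.sup id : ℕ) + 1)) * ((F.sup id : ℕ) : ℝ) ≤
        (η - η') / 2 / (4 * ((F.sup id : ℕ) + 1)) * ((F.sup id : ℕ) + 1) := by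
      apply mul_le_mul_of_nonneg_left (by linarith)
      have : 0 < (η - η') / 2 := by linarith
      positivity
    refine e1.trans (le_of_eq ?_)
    field_simp
    ring
  have k1 := abs_le.1 (hs z hz z' hz')
  have k2 := abs_le.1 (hs w hw w' hw')
  have k3 := abs_le.1 (hs z hz w' hw')
  have k4 := abs_le.1 (hs w hw z' hz')
  have k5 := abs_le.1 (hd z hz z' hz' w hw w' hw')
  rw [abs_le]
  constructor <;> linarith [k1.1, k1.2, k2.1, k2.2, k3.1, k3.2, k4.1, k4.2, k5.1, k5.2]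

/-- consequence for the barrier -/
theorem dec_bar {p s η : ℝ} {f : E → ℝ → ℝ} (hf : L.IsPot f) (h : Dec L p s η f) :
    ∀ z ∈ L.room p, ∀ z' ∈ L.room p, ∀ w ∈ L.room p, ∀ w' ∈ L.room p,
      |bar (L.kbar f s) (L.cell p) z z' + bar (L.kbar f s) (L.cell p) w w'
        - bar (L.kbar f s) (L.cell p) z w' - bar (L.kbar f s) (L.cell p) w z'| ≤ 4 * η := by
  obtain ⟨F, c, η', hF, hF1, hη', hd⟩ := h
  obtain ⟨M, hM⟩ := isPot_good L hf
  obtain ⟨B, Λ, hB, hΛ, hKD⟩ := kd_kbar L M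
  have hK := hKD f hM hf.perb s p
  obtain ⟨z0, hz0⟩ := hK.ne
  have hz0 := hK.sub hz0
  obtain ⟨b', hb'⟩ := bar_decoupled hK hF hF1 c (a := fun z => L.seg f p s F c z z0)
    (b := fun z' => L.seg f p s F c z0 z' - L.seg f p s F c z0 z0) (ε := η') (fun z hz z' hz' => by
      have := hd z hz z' hz' z0 hz0 z0 hz0
      refine le_trans (le_of_eq ?_) this
      congr 1
      simp only [Lat.seg]
      ring)
  intro z hz z' hz' w hw w' hw'
  have k1 := abs_le.1 (hb' z hz z' hz')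
  have k2 := abs_le.1 (hb' w hw w' hw')
  have k3 := abs_le.1 (hb' z hz w' hw')
  have k4 := abs_le.1 (hb' w hw z' hz')
  rw [abs_le]
  constructor <;> linarith [k1.1, k1.2, k2.1, k2.2, k3.1, k3.2, k4.1, k4.2]

lemma DecA.isPot_of_sm {G : E → ℝ → ℝ} (hG : L.IsSm G) : L.IsPot G :=
  ⟨hG.smooth.of_le (WithTop.coe_le_coe.2 (le_top : (2 : ℕ∞) ≤ ⊤)), hG.perb, hG.perg, hG.pert⟩

lemma DecA.isSm_smul {G : E → ℝ → ℝ} (hG : L.IsSm G) (c : ℝ) : L.IsSm (fun x t => c * G x t) :=
  ⟨contDiff_const.mul hG.smooth, fun i x t => by rw [hG.perb], fun x t => by rw [hG.perg],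
    fun x t => by rw [hG.pert]⟩

lemma DecA.good_smul {M : ℝ} {G : E → ℝ → ℝ} (hG : Good M G) (c : ℝ) :
    Good (|c| * M) (fun x t => c * G x t) := by
  refine ⟨mul_nonneg (abs_nonneg _) hG.pos, continuous_const.mul hG.cont, fun x t => ?_,
    fun x x' t => ?_, fun x t t' => ?_⟩
  · rw [abs_mul]; exact mul_le_mul_of_nonneg_left (hG.bd x t) (abs_nonneg _)
  · rw [← mul_sub, abs_mul, mul_assoc]; exact mul_le_mul_of_nonneg_left (hG.lipx x x' t) (abs_nonneg _)
  · rw [← mul_sub, abs_mul, mul_assoc]; exact mul_le_mul_of_nonneg_left (hG.lipt x t t') (abs_nonneg _)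

lemma DecA.good_add {M M' : ℝ} {f G : E → ℝ → ℝ} (hf : Good M f) (hG : Good M' G) :
    Good (M + M') (fun x t => f x t + G x t) := by
  refine ⟨add_nonneg hf.pos hG.pos, hf.cont.add hG.cont, fun x t => ?_, fun x x' t => ?_,
    fun x t t' => ?_⟩
  · exact (abs_add_le _ _).trans (add_le_add (hf.bd x t) (hG.bd x t))
  · rw [add_sub_add_comm, add_mul]
    exact (abs_add_le _ _).trans (add_le_add (hf.lipx x x' t) (hG.lipx x x' t))
  · rw [add_sub_add_comm, add_mul]
    exact (abs_add_le _ _).trans (add_le_add (hf.lipt x t t') (hG.lipt x t t'))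

lemma DecA.exists_w (κ V Q δ : ℝ) (hδ : 0 < δ) : ∃ w : ℝ, 0 < w ∧ w < 1 / 2 ∧
    κ * (w * V + Real.sqrt (Q * w)) ≤ δ := by
  have hc : Continuous (fun w : ℝ => κ * (w * V + Real.sqrt (Q * w))) := by fun_prop
  have h0 := hc.tendsto 0
  simp only [zero_mul, mul_zero, Real.sqrt_zero, add_zero] at h0
  have h1 : ∀ᶠ w : ℝ in 𝓝[>] 0, κ * (w * V + Real.sqrt (Q * w)) < δ :=
    nhdsWithin_le_nhds (h0.eventually (Iio_mem_nhds hδ))
  have h2 : ∀ᶠ w : ℝ in 𝓝[>] 0, w < 1 / 2 :=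
    nhdsWithin_le_nhds (Iio_mem_nhds (by norm_num))
  obtain ⟨w, hw1, hw2, hw3⟩ := (h1.and (h2.and self_mem_nhdsWithin)).exists
  exact ⟨w, hw3, hw2, hw1.le⟩

theorem dec_dense (hd : 0 < d) {p β Φ M0 s η : ℝ} {f : E → ℝ → ℝ} (hf : L.IsPot f)
    (hD : L.Dat p β Φ M0 f) (hs : M0 ≤ s) (hη : 0 < η) (N : L.SmNorm) {ε : ℝ} (hε : 0 < ε) :
    ∃ G, L.IsSm G ∧ N.nm G < ε ∧ Good ε G ∧ Dec L p s η (fun x t => f x t + G x t) := by
  classical
  have _ := hd
  obtain ⟨M, hM⟩ := isPot_good L hf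
  obtain ⟨B, Λ, hB, hΛ, hKD⟩ := kd_kbar L (M + 1)
  obtain ⟨ρ, hρ, hopen⟩ := dat_open L hf hD
  have hM0 := hM.pos
  have hk2 := kap2_nonneg L
  -- number of cells
  obtain ⟨n, hn⟩ := exists_nat_ge (40 * Λ * kap2 L / η + 40)
  have hn0 : 0 ≤ 40 * Λ * kap2 L / η := by positivity
  have hn40 : (40:ℝ) ≤ n := by linarith
  have hn40' : 40 ≤ n := by exact_mod_cast hn40
  have hn2 : 2 ≤ n := by omega
  have hnpos : (0:ℝ) < n := by linarith
  set r : ℝ := Λ * (kap2 L * (5 / (2 * n))) with hr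
  have hr8 : 8 * r ≤ η / 2 := by
    have h1 : 40 * Λ * kap2 L / η ≤ n := by linarith
    rw [div_le_iff₀ hη] at h1
    have h2 : 8 * r = 20 * Λ * kap2 L / n := by rw [hr]; field_simp; ring
    rw [h2, div_le_iff₀ hnpos]
    linarith
  have hr0 : 0 ≤ r := by rw [hr]; positivity
  -- time width
  obtain ⟨w, hw0, hw2, hw⟩ := DecA.exists_w (kap L) ‖L.vel s‖ (2 * (B + (M + 1) + 1)) (1 / (8 * n))
    (by positivity)
  have hkp := kap_pos L
  have htube : ∀ t ∈ Icc (0:ℝ) w, ∀ r : E, ‖r‖ ≤ Real.sqrt (2 * (B + (M + 1) + 1) * w) →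
      kap L * ‖t • L.vel s + r‖ ≤ 1 / (8 * n) := by
    intro t ht r hr
    refine le_trans (mul_le_mul_of_nonneg_left ?_ hkp.le) hw
    refine (norm_add_le _ _).trans (add_le_add ?_ hr)
    rw [norm_smul, Real.norm_eq_abs, abs_of_nonneg ht.1]
    exact mul_le_mul_of_nonneg_right ht.2 (norm_nonneg _)
  -- amplitude
  have hgood : ∀ k : Cl d n, ∃ Ck, Good Ck (gz L p w k) := fun k =>
    isPot_good L (DecA.isPot_of_sm L (gz_isSm L p w k))
  choose Ck hCk using hgood
  set Kb : ℝ := 1 + ∑ k : Cl d n, (Ck k + |N.nm (gz L p w k)|) with hKb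
  have hterm : ∀ k : Cl d n, 0 ≤ Ck k + |N.nm (gz L p w k)| := fun k =>
    add_nonneg (hCk k).pos (abs_nonneg _)
  have hKbk : ∀ k : Cl d n, Ck k + |N.nm (gz L p w k)| ≤ Kb := by
    intro k
    have := Finset.single_le_sum (f := fun k : Cl d n => Ck k + |N.nm (gz L p w k)|)
      (fun k _ => hterm k) (Finset.mem_univ k)
    linarith
  have hKb1 : 1 ≤ Kb := by
    have : 0 ≤ ∑ k : Cl d n, (Ck k + |N.nm (gz L p w k)|) := Finset.sum_nonneg fun k _ => hterm k
    linarith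
  set mm : ℝ := min (min ρ 1) ε with hmm
  have hmm0 : 0 < mm := lt_min (lt_min hρ one_pos) hε
  set τ : ℝ := mm / (2 * Kb) with hτ
  have hτ0 : 0 < τ := by positivity
  have hτC : ∀ k : Cl d n, τ * (Ck k + |N.nm (gz L p w k)|) ≤ mm / 2 := by
    intro k
    have h1 := mul_le_mul_of_nonneg_left (hKbk k) hτ0.le
    have h2 : τ * Kb = mm / 2 := by rw [hτ]; field_simp
    linarith
  have hτ1 : ∀ k : Cl d n, τ * Ck k ≤ mm / 2 := fun k => by
    have := hτC k
    have h2 : 0 ≤ τ * |N.nm (gz L p w k)| := by positivity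
    linarith
  have hτ2 : ∀ k : Cl d n, τ * |N.nm (gz L p w k)| ≤ mm / 2 := fun k => by
    have := hτC k
    have h2 : 0 ≤ τ * Ck k := mul_nonneg hτ0.le (hCk k).pos
    linarith
  have hmε : mm ≤ ε := min_le_right _ _
  have hmρ : mm ≤ ρ := (min_le_left _ _).trans (min_le_left _ _)
  have hm1 : mm ≤ 1 := (min_le_left _ _).trans (min_le_right _ _)
  set G : Cl d n → E → ℝ → ℝ := fun k x t => (-τ) * gz L p w k x t with hG
  have hGsm : ∀ k, L.IsSm (G k) := fun k => DecA.isSm_smul L (gz_isSm L p w k) (-τ)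
  have hGg : ∀ k, Good (mm / 2) (G k) := fun k => by
    refine good_mono (DecA.good_smul (hCk k) (-τ)) ?_
    rw [abs_neg, abs_of_pos hτ0]; exact hτ1 k
  set fk : Cl d n → E → ℝ → ℝ := fun k x t => f x t + G k x t with hfk
  have hfkg : ∀ k, Good (M + 1) (fk k) := fun k =>
    good_mono (DecA.good_add hM (hGg k)) (by linarith)
  have hfkp : ∀ k, L.IsPot (fk k) := fun k => isPot_add_sm L hf (hGsm k)
  have hM1 : Good (M + 1) f := good_mono hM (by linarith)
  have hK := hKD f hM1 hf.perb s p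
  have hKk : ∀ k, KD (L.kbar (fk k) s) (L.cell p) (L.room p) B Λ := fun k =>
    hKD (fk k) (hfkg k) (hfkp k).perb s p
  have : NeZero n := ⟨by omega⟩
  have hne : (Finset.univ : Finset (Cl d n)).Nonempty := Finset.univ_nonempty
  have hcard : (0:ℝ) < (Finset.univ : Finset (Cl d n)).card := by exact_mod_cast hne.card_pos
  -- the average
  have hav : ∀ z ∈ L.room p, ∀ z' ∈ L.room p,
      (∑ k : Cl d n, L.kbar (fk k) s z z') / (Finset.univ : Finset (Cl d n)).card ≤
        L.kbar f s z z' - τ / (Finset.univ : Finset (Cl d n)).card := by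
    intro z hz z' hz'
    refine (kbar_concave L Finset.univ hne (fun k _ => hfkg k) s z z').trans ?_
    have hFg := good_avg Finset.univ hne (fun k _ => hfkg k)
    have hpt : ∀ x t, (∑ k : Cl d n, fk k x t) / (Finset.univ : Finset (Cl d n)).card +
        τ / (Finset.univ : Finset (Cl d n)).card * zt w t ≤ f x t := by
      intro x t
      have e1 : ∑ k : Cl d n, fk k x t = (Finset.univ : Finset (Cl d n)).card * f x t -
          τ * ((∑ k : Cl d n, gc L p k x) * zt w t) := by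
        simp only [hfk, hG, gz]
        rw [Finset.sum_add_distrib, Finset.sum_const, nsmul_eq_mul, ← Finset.mul_sum,
          ← Finset.sum_mul]
        ring
      have e2 := sum_gc_ge L hn2 p x
      have e3 := zt_nonneg hw0 hw2.le t
      have e4 : zt w t ≤ (∑ k : Cl d n, gc L p k x) * zt w t := by nlinarith
      have e6 : τ / (Finset.univ : Finset (Cl d n)).card * zt w t =
          τ * zt w t / (Finset.univ : Finset (Cl d n)).card := by ring
      rw [e1, e6, ← add_div, div_le_iff₀ hcard]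
      have e5 := mul_le_mul_of_nonneg_left e4 hτ0.le
      linarith
    have htb := kbar_tube L (B := B) hFg hM1 (fun i x t => by
        simp only [(hfkp _).perb]) hf.perb s z z' ((abs_le.1 (hK.bd z hz z' hz')).2) hw0 hw2
      (fun t => τ / (Finset.univ : Finset (Cl d n)).card * zt w t)
      ((continuous_const.mul (zt_cont w)).intervalIntegrable _ _)
      (fun t _ r _ => hpt _ _) (fun t _ r _ => hpt _ _) (fun t _ x => hpt _ _)
    rw [intervalIntegral.integral_const_mul, zt_integral hw0 hw2.le, mul_one] at htb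
    linarith
  obtain ⟨k, -, hal⟩ := DecA.al_increase hK Finset.univ hne (fun k _ => hKk k)
    (τ := τ / (Finset.univ : Finset (Cl d n)).card) (by positivity) hav
  have hK' := hKk k
  -- the chosen perturbation
  have hsup : ∀ x t, |f x t - fk k x t| ≤ ρ := by
    intro x t
    have e : f x t - fk k x t = - G k x t := by simp only [hfk]; ring
    rw [e, abs_neg]
    exact ((hGg k).bd x t).trans (by linarith)
  have hDat := hopen (fk k) (hfkp k) hsup
  obtain ⟨ε0, hSD, h3⟩ := sdata_of_dat L (hfkp k) hDat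
  set V : Set E := {x | x ∈ L.room p ∧ vs L p k x ∧ |L.y x - p| ≤ 1 / 8} with hV
  have hVA : V ⊆ L.room p := fun x hx => hx.1
  -- outside of the cell the kernels agree
  have hcmp : ∀ z ∈ L.room p, ∀ z' ∈ L.room p, z ∉ {x : E | vs L p k x} → z' ∉ {x : E | vs L p k x} →
      L.kbar f s z z' ≤ L.kbar (fk k) s z z' := by
    intro z hz z' hz' hzV hzV'
    have htb := kbar_tube L (B := B) (f := f) (f' := fk k) hM1 (hfkg k) hf.perb (hfkp k).perb s z z'
      ((abs_le.1 (hK'.bd z hz z' hz')).2) hw0 hw2 (fun _ => 0) intervalIntegrable_const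
      (fun t ht r hr => by
        have h1 := gc_eq_zero L hn2 p k (x := z) (r := t • L.vel s + r) hzV (htube t ht r hr)
        rw [← add_assoc] at h1
        simp only [hfk, hG, gz, h1]
        simp)
      (fun t ht r hr => by
        have h0 : kap L * ‖-((1 - t) • L.vel s) + r‖ ≤ 1 / (8 * n) := by
          have h1 := htube (1 - t) ⟨by linarith [ht.2], by linarith [ht.1]⟩ (-r) (by rwa [norm_neg])
          have h2 : ‖-((1 - t) • L.vel s) + r‖ = ‖(1 - t) • L.vel s + -r‖ := by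
            rw [← norm_neg]; congr 1; abel
          rwa [h2]
        have h1 := gc_eq_zero L hn2 p k (x := z') (r := -((1 - t) • L.vel s) + r) hzV' h0
        have h2 : z' + (-((1 - t) • L.vel s) + r) = z' - (1 - t) • L.vel s + r := by abel
        rw [h2] at h1
        simp only [hfk, hG, gz, h1]
        simp)
      (fun t ht x => by
        have h1 := zt_mid hw0 hw2.le (t := t) ⟨ht.1.le, ht.2.le⟩
        simp only [hfk, hG, gz, h1]
        simp)
    simpa using htb
  have hrr : ∀ x ∈ V, ∀ x' ∈ V, ∀ z ∈ L.room p,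
      |bar (L.kbar (fk k) s) (L.cell p) z x - bar (L.kbar (fk k) s) (L.cell p) z x'| ≤ r ∧
      |bar (L.kbar (fk k) s) (L.cell p) x z - bar (L.kbar (fk k) s) (L.cell p) x' z| ≤ r := by
    intro x hx x' hx' z hz
    obtain ⟨m, hm⟩ := vs_close L hn40' hx.2.1 hx'.2.1 hx.2.2 hx'.2.2
    have hmr : x' + L.lv m ∈ L.room p := by
      have h1 : |L.y x' - p| ≤ 7 / 8 := hx'.1
      show |L.y (x' + L.lv m) - p| ≤ 7 / 8
      rw [H33.y_add, H33.y_lv, add_zero]; exact h1
    have e1 : bar (L.kbar (fk k) s) (L.cell p) z (x' + L.lv m) =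
        bar (L.kbar (fk k) s) (L.cell p) z x' := by
      refine DecA.bar_red_right hK' (fun u _ => ?_) hz
      have := kbar_per L (hfkp k).perb s u x' 0 m
      rwa [H33.lv_zero, add_zero] at this
    have e2 : bar (L.kbar (fk k) s) (L.cell p) (x' + L.lv m) z =
        bar (L.kbar (fk k) s) (L.cell p) x' z := by
      refine DecA.bar_red_left hK' (fun u _ => ?_) hz
      have := kbar_per L (hfkp k).perb s x' u m 0
      rwa [H33.lv_zero, add_zero] at this
    rw [← e1, ← e2]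
    have b1 := bar_lip hK' hz hx.1 hz hmr
    have b2 := bar_lip hK' hx.1 hz hmr hz
    rw [dist_self, zero_add] at b1
    rw [dist_self, add_zero] at b2
    have b3 : Λ * dist x (x' + L.lv m) ≤ r := by
      rw [hr, dist_eq_norm]
      exact mul_le_mul_of_nonneg_left hm hΛ.le
    exact ⟨b1.trans b3, b2.trans b3⟩
  have hvis : ∀ S1 : ℕ, ∃ S0 : ℕ, ∀ T ≥ S0, ∀ x : ℕ → E, (∀ i ≤ T, x i ∈ L.room p) →
      cost (L.kbar (fk k) s) x T = kp (L.kbar (fk k) s) (L.cell p) T (x 0) (x T) →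
        ∃ t, S1 ≤ t ∧ t + S1 ≤ T ∧ x t ∈ V := by
    intro S1
    set δ : ℝ := al (L.kbar (fk k) s) (L.cell p) - al (L.kbar f s) (L.cell p) with hδ
    have hδ0 : 0 < δ := by linarith
    obtain ⟨Q, hQ⟩ := exists_nat_gt (16 * B / δ)
    set i0 : ℕ := max S1 (Lat.R1 β) with hi0
    refine ⟨2 * i0 + Q + 1, fun T hT x hx hc => ?_⟩
    have hT1 : 1 ≤ T := by omega
    obtain ⟨t, ht1, ht2, htV⟩ := DecA.visit hK hK' hcmp hT1 hx hc.le (i := i0) (j := T - i0)
      (by omega) (by omega) (by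
        have e1 : ((T - i0 : ℕ) : ℝ) = (T : ℝ) - i0 := by rw [Nat.cast_sub (by omega)]
        rw [e1]
        have e2 : (Q : ℝ) ≤ T - i0 - i0 := by
          have : (2 * i0 + Q + 1 : ℝ) ≤ T := by exact_mod_cast hT
          linarith
        have e3 : 16 * B < Q * δ := by rwa [div_lt_iff₀ hδ0] at hQ
        have e4 := mul_le_mul_of_nonneg_right e2 hδ0.le
        rw [← hδ]
        linarith)
    have hNM := nm_of_min L (β := β) (Φ := Φ) (M0 := M0) hK' (h3 s hs) hT1 hx hc.le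
    have hi1 : Lat.R1 β ≤ i0 := le_max_right _ _
    have hi2 : S1 ≤ i0 := le_max_left _ _
    obtain ⟨k1, hk1, hk1', hN1⟩ := surg1 hSD hNM (i := 0) (by omega)
    obtain ⟨k2, hk2, hk2', hN2⟩ := surg1 hSD hNM (i := T - Lat.R1 β) (by omega)
    have hlt := surg2 hSD hNM (i := k1) (j := k2) (by omega) (by omega) (hN1.wide hSD) (hN2.wide hSD) (k := t)
      (by omega) (by omega)
    exact ⟨t, by omega, by omega, hx t (by omega), htV, hlt.le⟩
  obtain ⟨F, hF, hF1, hFd⟩ := DecA.window hK' hVA hrr hvis (ε := η / 32) (by positivity)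
  refine ⟨G k, hGsm k, ?_, good_mono (hGg k) (by linarith), F, _, 8 * (η / 32 + r), hF, hF1,
    by linarith, hFd⟩
  refine (N.smul_le (-τ) _ (gz_isSm L p w k)).trans_lt ?_
  rw [abs_neg, abs_of_pos hτ0]
  have h1 := hτ2 k
  have h2 := mul_le_mul_of_nonneg_left (le_abs_self (N.nm (gz L p w k))) hτ0.le
  linarith

lemma DecA.fin_rho (J : ℕ) {P : ℕ → ℝ → Prop} (hP : ∀ i ≤ J, ∃ ρ > 0, P i ρ)
    (mono : ∀ i ρ ρ', ρ' ≤ ρ → P i ρ → P i ρ') : ∃ ρ > 0, ∀ i ≤ J, P i ρ := by
  induction J with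
  | zero =>
    obtain ⟨ρ, hρ, h⟩ := hP 0 le_rfl
    exact ⟨ρ, hρ, fun i hi => by rw [Nat.le_zero.1 hi]; exact h⟩
  | succ J ih =>
    obtain ⟨ρ, hρ, h⟩ := ih fun i hi => hP i (hi.trans (Nat.le_succ J))
    obtain ⟨ρ', hρ', h'⟩ := hP (J + 1) le_rfl
    refine ⟨min ρ ρ', lt_min hρ hρ', fun i hi => ?_⟩
    rcases hi.lt_or_eq with h1 | h1
    · exact mono i ρ _ (min_le_left _ _) (h i (Nat.lt_succ_iff.1 h1))
    · rw [h1]; exact mono _ ρ' _ (min_le_right _ _) h'

theorem dec_dense_fin' (hd : 0 < d) {p β Φ M0 η : ℝ} {f : E → ℝ → ℝ} (hf : L.IsPot f)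
    (hD : L.Dat p β Φ M0 f) (s : ℕ → ℝ) (J : ℕ) (hs : ∀ i ≤ J, M0 ≤ s i) (hη : 0 < η) (N : L.SmNorm) :
    ∀ {ε : ℝ}, 0 < ε → 
    ∃ G, L.IsSm G ∧ N.nm G < ε ∧ Good ε G ∧ L.Dat p β Φ M0 (fun x t => f x t + G x t) ∧
      ∀ i ≤ J, Dec L p (s i) η (fun x t => f x t + G x t) := by
  induction J with
  | zero =>
    intro ε hε
    obtain ⟨ρ, hρ, hopen⟩ := dat_open L hf hD
    obtain ⟨G, h1, h2, h3, h4⟩ := dec_dense L hd hf hD (hs 0 le_rfl) hη N (lt_min hε hρ)
    refine ⟨G, h1, h2.trans_le (min_le_left _ _), good_mono h3 (min_le_left _ _),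
      hopen _ (isPot_add_sm L hf h1) (fun x t => ?_), fun i hi => by rw [Nat.le_zero.1 hi]; exact h4⟩
    have e : f x t - (f x t + G x t) = - G x t := by ring
    rw [e, abs_neg]
    exact (h3.bd x t).trans (min_le_right _ _)
  | succ J ih =>
    intro ε hε
    obtain ⟨G1, a1, a2, a3, a4, a5⟩ := ih (fun i hi => hs i (hi.trans (Nat.le_succ J))) (half_pos hε)
    have hf1 := isPot_add_sm L hf a1
    obtain ⟨ρ, hρ, hopen⟩ := dat_open L hf1 a4
    obtain ⟨ρ', hρ', hopen'⟩ := DecA.fin_rho J (P := fun i ρ => ∀ f', L.IsPot f' →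
      (∀ x t, |(f x t + G1 x t) - f' x t| ≤ ρ) → Dec L p (s i) η f')
      (fun i hi => dec_open L hf1 (a5 i hi))
      (fun i ρ ρ' hρ h f' hf' hff => h f' hf' fun x t => (hff x t).trans hρ)
    obtain ⟨G2, b1, b2, b3, b4⟩ := dec_dense L hd hf1 a4 (hs (J + 1) le_rfl) hη N
      (lt_min (half_pos hε) (lt_min hρ hρ'))
    have hf2 := isPot_add_sm L hf1 b1
    have hdiff : ∀ x t, |(f x t + G1 x t) - (f x t + G1 x t + G2 x t)| ≤ min ρ ρ' := by
      intro x t
      have e : (f x t + G1 x t) - (f x t + G1 x t + G2 x t) = - G2 x t := by ring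
      rw [e, abs_neg]
      exact (b3.bd x t).trans (min_le_right _ _)
    have heq : (fun x t => f x t + (G1 x t + G2 x t)) = fun x t => f x t + G1 x t + G2 x t := by
      funext x t; ring
    refine ⟨fun x t => G1 x t + G2 x t, ⟨a1.smooth.add b1.smooth, fun i x t => ?_, fun x t => ?_,
      fun x t => ?_⟩, ?_, ?_, ?_, ?_⟩
    · rw [a1.perb, b1.perb]
    · rw [a1.perg, b1.perg]
    · rw [a1.pert, b1.pert]
    · have := N.add_le G1 G2 a1 b1
      have h5 : N.nm G2 < ε / 2 := b2.trans_le (min_le_left _ _)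
      linarith
    · refine good_mono (DecA.good_add a3 b3) ?_
      have : min (ε / 2) (min ρ ρ') ≤ ε / 2 := min_le_left _ _
      linarith
    · rw [heq]
      exact hopen _ hf2 fun x t => (hdiff x t).trans (min_le_left _ _)
    · intro i hi
      rw [heq]
      rcases hi.lt_or_eq with h1 | h1
      · exact hopen' i (Nat.lt_succ_iff.1 h1) _ hf2 fun x t => (hdiff x t).trans (min_le_right _ _)
      · rw [h1]; exact b4

/-- finitely many speeds -/
theorem dec_dense_fin (hd : 0 < d) {p β Φ M0 η : ℝ} {f : E → ℝ → ℝ} (hf : L.IsPot f)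
    (hD : L.Dat p β Φ M0 f) (s : ℕ → ℝ) (J : ℕ) (hs : ∀ i ≤ J, M0 ≤ s i) (hη : 0 < η) (N : L.SmNorm)
    {ε : ℝ} (hε : 0 < ε) :
    ∃ G, L.IsSm G ∧ N.nm G < ε ∧ Good ε G ∧ ∀ i ≤ J, Dec L p (s i) η (fun x t => f x t + G x t) := by
  obtain ⟨G, h1, h2, h3, _, h5⟩ := dec_dense_fin' L hd hf hD s J hs hη N hε
  exact ⟨G, h1, h2, h3, h5⟩

end Esc
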