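import Pool.Agent.helper37.Esc.Analysis

/-!
Periodic functions are bounded; the gradient of a potential on the torus is regular.
-/

noncomputable section

set_option linter.unusedSectionVars false

namespace Esc

namespace Orb

open Set Filter Topology MeasureTheory intervalIntegral
open scoped NNReal RealInnerProductSpace ContDiff

variable {d : ℕ} {E : Type*} [NormedAddCommGroup E] [InnerProductSpace ℝ E] [FiniteDimensional ℝ E]
  (L : Lat d E)

/-- representatives in a bounded set -/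
lemma exists_rep : ∃ R : ℝ, ∀ x : E, ∃ (m : ℤ) (n : Fin d → ℤ), ‖x + (m : ℝ) • L.g + L.lv n‖ ≤ R := by
  refine ⟨1 + ∑ i, ‖L.b i‖, fun x => ?_⟩
  set m : ℤ := -⌊L.y x⌋ with hm
  set x1 : E := x + (m : ℝ) • L.g with hx1
  have hy1 : L.y x1 = Int.fract (L.y x) := by
    simp only [Lat.y, hx1, inner_add_right, inner_smul_right, L.eg, hm]
    push_cast
    rw [mul_one, ← sub_eq_add_neg]
    rfl
  have hP : inner ℝ L.e (L.P x1) = 0 := by
    simp only [Lat.P, inner_sub_right, inner_smul_right, real_inner_self_eq_norm_sq, L.norm_e]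
    simp [Lat.y]
  obtain ⟨θ, hθ⟩ := (Submodule.mem_span_range_iff_exists_fun ℝ).1 (L.span _ hP)
  refine ⟨m, fun i => -⌊θ i⌋, ?_⟩
  have e : x1 + L.lv (fun i => -⌊θ i⌋) = L.y x1 • L.e + ∑ i, Int.fract (θ i) • L.b i := by
    have e1 : x1 = L.y x1 • L.e + ∑ i, θ i • L.b i := by
      rw [hθ, Lat.P]; abel
    conv_lhs => rw [e1]
    rw [Lat.lv, add_assoc, ← Finset.sum_add_distrib]
    congr 1
    refine Finset.sum_congr rfl fun i _ => ?_
    push_cast
    rw [← add_smul, ← sub_eq_add_neg]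
    rfl
  rw [e]
  refine (norm_add_le _ _).trans (add_le_add ?_ ?_)
  · rw [norm_smul, L.norm_e, mul_one, hy1, Real.norm_eq_abs, abs_of_nonneg (Int.fract_nonneg _)]
    exact (Int.fract_lt_one _).le
  · refine (norm_sum_le _ _).trans (Finset.sum_le_sum fun i _ => ?_)
    rw [norm_smul, Real.norm_eq_abs, abs_of_nonneg (Int.fract_nonneg _)]
    exact mul_le_of_le_one_left (norm_nonneg _) (Int.fract_lt_one _).le

lemma per_bdd {W : Type*} [NormedAddCommGroup W] {H : E × ℝ → W} (hc : Continuous H)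
    (hb : ∀ i, Function.Periodic H (L.b i, 0)) (hg : Function.Periodic H (L.g, 0))
    (ht : Function.Periodic H (0, 1)) : ∃ C, ∀ p, ‖H p‖ ≤ C := by
  obtain ⟨R, hR⟩ := exists_rep L
  have hK : IsCompact (Metric.closedBall (0 : E) R ×ˢ Icc (0:ℝ) 1) :=
    (isCompact_closedBall _ _).prod isCompact_Icc
  obtain ⟨C, hC⟩ := hK.exists_bound_of_continuousOn hc.continuousOn
  refine ⟨C, fun p => ?_⟩
  obtain ⟨m, n, hmn⟩ := hR p.1
  have hper : Function.Periodic H (L.lv n, 0) := by
    have : ((L.lv n, 0) : E × ℝ) = ∑ i, n i • ((L.b i, 0) : E × ℝ) := by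
      rw [Prod.ext_iff]
      constructor
      · simp only [Lat.lv, Prod.fst_sum, Prod.smul_fst]
        exact Finset.sum_congr rfl fun i _ => Int.cast_smul_eq_zsmul ℝ (n i) (L.b i)
      · simp [Prod.snd_sum]
    rw [this]
    classical
    induction (Finset.univ : Finset (Fin d)) using Finset.induction_on with
    | empty => intro x; simp
    | insert i s hi ih =>
      rw [Finset.sum_insert hi]
      exact ((hb i).zsmul (n i)).add_period ih
  have hper2 : Function.Periodic H (m • ((L.g, 0) : E × ℝ)) := hg.zsmul m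
  have hper3 : Function.Periodic H ((-⌊p.2⌋) • ((0, 1) : E × ℝ)) := ht.zsmul _
  have e : H (p + (m • ((L.g, 0) : E × ℝ) + (L.lv n, 0) + (-⌊p.2⌋) • ((0, 1) : E × ℝ))) = H p :=
    ((hper2.add_period hper).add_period hper3) p
  rw [← e]
  refine hC _ ⟨?_, ?_⟩
  · rw [mem_closedBall_zero_iff]
    have e2 : (p + (m • ((L.g, 0) : E × ℝ) + (L.lv n, 0) + (-⌊p.2⌋) • ((0, 1) : E × ℝ))).1 =
        p.1 + (m : ℝ) • L.g + L.lv n := by
      simp only [Prod.fst_add, Prod.smul_fst, smul_zero, add_zero]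
      rw [← Int.cast_smul_eq_zsmul ℝ m L.g, add_assoc]
    rw [e2]; exact hmn
  · have e2 : (p + (m • ((L.g, 0) : E × ℝ) + (L.lv n, 0) + (-⌊p.2⌋) • ((0, 1) : E × ℝ))).2 =
        Int.fract p.2 := by
      simp only [Prod.snd_add, Prod.smul_snd, smul_zero, zero_add, zsmul_eq_mul, mul_one]
      push_cast
      rw [← sub_eq_add_neg]
      rfl
    rw [e2]
    exact ⟨Int.fract_nonneg _, (Int.fract_lt_one _).le⟩

/-- the spatial gradient -/
def grd (f : E → ℝ → ℝ) (x : E) (t : ℝ) : E :=
  (InnerProductSpace.toDual ℝ E).symm (fderiv ℝ (fun y => f y t) x)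

lemma grd_eq {f : E → ℝ → ℝ} (hf : ContDiff ℝ 2 (fun p : E × ℝ => f p.1 p.2)) (p : E × ℝ) :
    grd f p.1 p.2 = (InnerProductSpace.toDual ℝ E).symm
      ((fderiv ℝ (fun p : E × ℝ => f p.1 p.2) p).comp (ContinuousLinearMap.inl ℝ E ℝ)) := by
  have h1 : HasFDerivAt (fun y : E => (y, p.2)) (ContinuousLinearMap.inl ℝ E ℝ) p.1 :=
    (hasFDerivAt_id (𝕜 := ℝ) p.1).prodMk (hasFDerivAt_const p.2 p.1)
  have h2 : HasFDerivAt (fun y => f y p.2) ((fderiv ℝ (fun p : E × ℝ => f p.1 p.2) p).comp
      (ContinuousLinearMap.inl ℝ E ℝ)) p.1 :=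
    HasFDerivAt.comp (g := fun p : E × ℝ => f p.1 p.2) p.1
      (hf.differentiable two_ne_zero (p.1, p.2)).hasFDerivAt h1
  rw [grd, h2.fderiv]

lemma grd_contDiff {f : E → ℝ → ℝ} (hf : ContDiff ℝ 2 (fun p : E × ℝ => f p.1 p.2)) :
    ContDiff ℝ 1 (fun q : E × ℝ => grd f q.1 q.2) := by
  have h1 : ContDiff ℝ 1 (fderiv ℝ (fun p : E × ℝ => f p.1 p.2)) :=
    hf.fderiv_right (m := 1) (by norm_num)
  have h2 : (fun q : E × ℝ => grd f q.1 q.2) = fun q => (InnerProductSpace.toDual ℝ E).symm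
      (((ContinuousLinearMap.compL ℝ E (E × ℝ) ℝ).flip (ContinuousLinearMap.inl ℝ E ℝ))
        (fderiv ℝ (fun p : E × ℝ => f p.1 p.2) q)) := by
    funext q
    rw [grd_eq hf]
    rfl
  rw [h2]
  exact (InnerProductSpace.toDual ℝ E).symm.toContinuousLinearEquiv.contDiff.comp
    ((ContinuousLinearMap.contDiff _).comp h1)

lemma periodic_of {W : Type*} {h : E → ℝ → W} (hb : ∀ i x t, h (x + L.b i) t = h x t)
    (hg : ∀ x t, h (x + L.g) t = h x t) (ht : ∀ x t, h x (t + 1) = h x t) :
    (∀ i, Function.Periodic (fun p : E × ℝ => h p.1 p.2) (L.b i, 0)) ∧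
      Function.Periodic (fun p : E × ℝ => h p.1 p.2) (L.g, 0) ∧
      Function.Periodic (fun p : E × ℝ => h p.1 p.2) (0, 1) :=
  ⟨fun i p => by simp [hb], fun p => by simp [hg], fun p => by simp [ht]⟩

/-- regularity of potentials on the torus -/
theorem exists_reg {f : E → ℝ → ℝ} (hf : L.IsPot f) : ∃ M M0, Reg f (grd f) M M0 := by
  obtain ⟨p1, p2, p3⟩ := periodic_of L hf.perb hf.perg hf.pert
  obtain ⟨C1, hC1⟩ := per_bdd L hf.smooth.continuous p1 p2 p3
  have gb : ∀ i x t, grd f (x + L.b i) t = grd f x t := fun i x t => by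
    have : (fun y => f y t) = fun y => f (y + L.b i) t := funext fun y => (hf.perb i y t).symm
    rw [grd, grd]
    conv_rhs => rw [this, fderiv_comp_add_right (f := fun y => f y t)]
  have gg : ∀ x t, grd f (x + L.g) t = grd f x t := fun x t => by
    have : (fun y => f y t) = fun y => f (y + L.g) t := funext fun y => (hf.perg y t).symm
    rw [grd, grd]
    conv_rhs => rw [this, fderiv_comp_add_right (f := fun y => f y t)]
  have gt : ∀ x t, grd f x (t + 1) = grd f x t := fun x t => by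
    have : (fun y => f y (t + 1)) = fun y => f y t := funext fun y => hf.pert y t
    rw [grd, grd, this]
  obtain ⟨q1, q2, q3⟩ := periodic_of L gb gg gt
  have hgC := grd_contDiff hf.smooth
  obtain ⟨C2, hC2⟩ := per_bdd L hgC.continuous q1 q2 q3
  have hder : ∀ c : E × ℝ, Function.Periodic (fun q : E × ℝ => grd f q.1 q.2) c →
      Function.Periodic (fderiv ℝ (fun q : E × ℝ => grd f q.1 q.2)) c := by
    intro c hc p
    have e := fderiv_comp_add_right (𝕜 := ℝ) (f := fun q : E × ℝ => grd f q.1 q.2) (x := p) c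
    rw [← e]
    congr 1
    exact funext fun q => hc q
  obtain ⟨C3, hC3⟩ := per_bdd L (hgC.continuous_fderiv one_ne_zero) (fun i => hder _ (q1 i))
    (hder _ q2) (hder _ q3)
  refine ⟨C3, max C1 C2, ?_, ?_, ?_, ?_, hf.smooth.continuous, hgC, ?_⟩
  · intro x t
    have h1 : HasFDerivAt (fun y : E => (y, t)) (ContinuousLinearMap.inl ℝ E ℝ) x :=
      (hasFDerivAt_id (𝕜 := ℝ) x).prodMk (hasFDerivAt_const t x)
    have h2 : DifferentiableAt ℝ (fun y => f y t) x :=
      (HasFDerivAt.comp (g := fun p : E × ℝ => f p.1 p.2) x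
        (hf.smooth.differentiable two_ne_zero (x, t)).hasFDerivAt h1).differentiableAt
    have h3 : innerSL ℝ (grd f x t) = fderiv ℝ (fun y => f y t) x := by
      rw [grd]
      ext v
      rw [innerSL_apply_apply, InnerProductSpace.toDual_symm_apply]
    rw [h3]
    exact h2.hasFDerivAt
  · intro x y t
    have := Convex.norm_image_sub_le_of_norm_fderiv_le (𝕜 := ℝ)
      (f := fun q : E × ℝ => grd f q.1 q.2) (s := univ) (x := (y, t)) (y := (x, t)) (C := C3)
      (fun q _ => hgC.differentiable one_ne_zero q) (fun q _ => hC3 q) convex_univ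
      (mem_univ _) (mem_univ _)
    simpa [Prod.norm_def] using this
  · exact fun x t => (hC2 (x, t)).trans (le_max_right _ _)
  · intro x t
    have := hC1 (x, t)
    rw [Real.norm_eq_abs] at this
    exact this.trans (le_max_left _ _)
  · exact (norm_nonneg _).trans (hC3 0)

/-- quantitative regularity -/
theorem exists_good {f : E → ℝ → ℝ} (hf : L.IsPot f) : ∃ M, Good M f := by
  obtain ⟨p1, p2, p3⟩ := periodic_of L hf.perb hf.perg hf.pert
  obtain ⟨C1, hC1⟩ := per_bdd L hf.smooth.continuous p1 p2 p3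
  have hder : ∀ c : E × ℝ, Function.Periodic (fun q : E × ℝ => f q.1 q.2) c →
      Function.Periodic (fderiv ℝ (fun q : E × ℝ => f q.1 q.2)) c := by
    intro c hc p
    have e := fderiv_comp_add_right (𝕜 := ℝ) (f := fun q : E × ℝ => f q.1 q.2) (x := p) c
    rw [← e]
    congr 1
    exact funext fun q => hc q
  obtain ⟨C3, hC3⟩ := per_bdd L (hf.smooth.continuous_fderiv two_ne_zero) (fun i => hder _ (p1 i))
    (hder _ p2) (hder _ p3)
  have hl : ∀ p q : E × ℝ, ‖f p.1 p.2 - f q.1 q.2‖ ≤ C3 * ‖p - q‖ := fun p q =>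
    Convex.norm_image_sub_le_of_norm_fderiv_le (𝕜 := ℝ)
      (f := fun q : E × ℝ => f q.1 q.2) (s := univ) (x := q) (y := p) (C := C3)
      (fun q _ => hf.smooth.differentiable two_ne_zero q) (fun q _ => hC3 q) convex_univ
      (mem_univ _) (mem_univ _)
  have h30 : 0 ≤ C3 := (norm_nonneg _).trans (hC3 0)
  refine ⟨max C1 C3, h30.trans (le_max_right _ _), hf.smooth.continuous, ?_, ?_, ?_⟩
  · intro x t
    have := hC1 (x, t)
    rw [Real.norm_eq_abs] at this
    exact this.trans (le_max_left _ _)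
  · intro x x' t
    have := hl (x, t) (x', t)
    simp only [Real.norm_eq_abs, Prod.mk_sub_mk, sub_self, Prod.norm_def, norm_zero] at this
    rw [max_eq_left (norm_nonneg _)] at this
    exact this.trans (mul_le_mul_of_nonneg_right (le_max_right _ _) (norm_nonneg _))
  · intro x t t'
    have := hl (x, t) (x, t')
    simp only [Real.norm_eq_abs, Prod.mk_sub_mk, sub_self, Prod.norm_def, norm_zero] at this
    rw [max_eq_right (abs_nonneg _)] at this
    exact this.trans (mul_le_mul_of_nonneg_right (le_max_right _ _) (abs_nonneg _))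

end Orb

end Esc
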