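import Pool.Agent.helper37.Esc.Short
import Pool.Agent.helper37.Esc.PerReg

/-!
Module O: an orbit from a sitewise locally minimal sequence.
-/

noncomputable section

namespace Esc

open Set Filter Topology MeasureTheory intervalIntegral
open scoped NNReal RealInnerProductSpace ContDiff

section ModuleO

variable {d : ℕ} {E : Type*} [NormedAddCommGroup E] [InnerProductSpace ℝ E] [FiniteDimensional ℝ E]
  (L : Lat d E)

lemma Orb.ker_nat {f : E → ℝ → ℝ} (h : ∀ x t, f x (t + 1) = f x t) (j : ℕ) (z z' : E) :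
    ker f 0 (j : ℝ) ((j : ℝ) + 1) z z' = ker f 0 0 1 z z' := by
  induction j with
  | zero => simp
  | succ j ih =>
    rw [← ih, ← ker_time h 0 (j : ℝ) ((j : ℝ) + 1) z z']
    push_cast
    rfl

theorem orbit_of_sitewise {f : E → ℝ → ℝ} (hf : L.IsPot f) (w : ℕ → E)
    (hmin : ∀ j, IsLocalMin (fun x => ker f 0 0 1 (w j) x + ker f 0 0 1 x (w (j + 2))) (w (j + 1))) :
    ∃ x v : ℝ → E, (∀ t, HasDerivAt x (v t) t) ∧
      (∀ t, HasFDerivAt (fun z => f z t) (innerSL ℝ (deriv v t)) (x t)) ∧ (∀ t, DifferentiableAt ℝ v t) ∧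
      (∀ j : ℕ, x j = w j) ∧
      (∀ j : ℕ, ∫ t in (j:ℝ)..(j+1), (‖v t‖ ^ 2 / 2 + f (x t) t) = ker f 0 0 1 (w j) (w (j + 1))) := by
  obtain ⟨M, M0, h⟩ := Orb.exists_reg L hf
  obtain ⟨Mg, hg⟩ := Orb.exists_good L hf
  choose X P hS hX0 hX1 hA using fun j : ℕ => Orb.goodI_unit h hg (j : ℝ) (w j) (w (j + 1))
  have hnat := fun j z z' => Orb.ker_nat (f := f) hf.pert j z z'
  have hstep : ∀ j, X j = X (j + 1) ∧ P j = P (j + 1) := by
    intro j
    have e1 : ((j + 1 : ℕ) : ℝ) = (j : ℝ) + 1 := by push_cast; ring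
    have hxy : X j ((j : ℝ) + 1) = X (j + 1) ((j : ℝ) + 1) := by
      rw [hX1 j, ← e1, hX0 (j + 1)]
    have hX1' : X (j + 1) ((j : ℝ) + 1 + 1) = w (j + 2) := by
      have := hX1 (j + 1)
      rwa [e1] at this
    have hv : P j ((j : ℝ) + 1) = P (j + 1) ((j : ℝ) + 1) := by
      refine Orb.vel_eq h hg (hS j) (hS (j + 1)) (a := (j : ℝ)) (b := (j : ℝ) + 1)
        (c := (j : ℝ) + 1 + 1) (by linarith) (by linarith) hxy ?_ ?_ ?_
      · rw [hX0, hX1, hA]
      · have := hA (j + 1)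
        rw [e1] at this
        rw [this, hX1', ← hxy, hX1]
      · rw [hX0, hX1, hX1']
        have hm := hmin j
        have e2 : (fun v => ker f 0 (j : ℝ) ((j : ℝ) + 1) (w j) v +
            ker f 0 ((j : ℝ) + 1) ((j : ℝ) + 1 + 1) v (w (j + 2))) =
            fun x => ker f 0 0 1 (w j) x + ker f 0 0 1 x (w (j + 2)) := by
          funext v
          rw [hnat j]
          have := hnat (j + 1) v (w (j + 2))
          rw [e1] at this
          rw [this]
        rw [e2]
        exact hm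
    exact h.sol_unique (hS j) (hS (j + 1)) hxy hv
  have hall : ∀ j, X j = X 0 ∧ P j = P 0 := by
    intro j
    induction j with
    | zero => exact ⟨rfl, rfl⟩
    | succ j ih => exact ⟨(hstep j).1.symm.trans ih.1, (hstep j).2.symm.trans ih.2⟩
  refine ⟨X 0, P 0, (hS 0).1, fun t => ?_, fun t => ((hS 0).2 t).differentiableAt, fun j => ?_,
    fun j => ?_⟩
  · rw [((hS 0).2 t).deriv]
    exact h.grad _ _
  · rw [← (hall j).1, hX0]
  · have := hA j
    rw [hnat, (hall j).1, (hall j).2] at this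
    exact this

end ModuleO

end Esc
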