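import Pool.Agent.helper37.Esc.Transfer
import Pool.Agent.helper37.Esc.Flat
import Pool.Agent.helper33.Esc.Open
import Pool.Agent.helper33.Esc.Final
import Pool.Agent.helper33.Esc.Dense2

/-!
Module T, part 3: the generic statement in raw form.
-/

noncomputable section

set_option linter.unusedSectionVars false

namespace Esc

open Set Filter Topology MeasureTheory
open scoped NNReal RealInnerProductSpace ContDiff

/-- the space -/
abbrev EE (n : ℕ) : Type := EuclideanSpace ℝ (Fin n)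

/-- descends to the torus -/
def PerZ {n : ℕ} (F : EE n × ℝ → ℝ) : Prop :=
  ∀ (m : Fin n → ℤ) (l : ℤ) (x : EE n) (t : ℝ),
    F (x + WithLp.toLp 2 (fun i => (m i : ℝ)), t + l) = F (x, t)

lemma perZ_single {n : ℕ} {F : EE n × ℝ → ℝ} (h : PerZ F) (i : Fin n) :
    Function.Periodic F (EuclideanSpace.single i 1, 0) := by
  intro q
  have := h (Pi.single i 1) 0 q.1 q.2
  have e : (WithLp.toLp 2 (fun j => ((Pi.single i 1 : Fin n → ℤ) j : ℝ)) : EE n) =
      EuclideanSpace.single i 1 := by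
    ext j
    simp [Pi.single_apply]
  rw [e] at this
  have e2 : q + (EuclideanSpace.single i 1, 0) =
      (q.1 + EuclideanSpace.single i 1, q.2 + ((0 : ℤ) : ℝ)) := by
    ext <;> simp
  rw [e2]
  exact this

lemma perZ_time {n : ℕ} {F : EE n × ℝ → ℝ} (h : PerZ F) : Function.Periodic F (0, 1) := by
  intro q
  have := h 0 1 q.1 q.2
  have e : (WithLp.toLp 2 (fun j => ((0 : Fin n → ℤ) j : ℝ)) : EE n) = 0 := by
    ext j
    simp
  rw [e] at this
  have e2 : q + (0, 1) = (q.1 + 0, q.2 + ((1 : ℤ) : ℝ)) := by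
    ext <;> simp
  rw [e2]
  exact this

lemma perZ_of {n : ℕ} {F : EE n × ℝ → ℝ}
    (h1 : ∀ i : Fin n, Function.Periodic F (EuclideanSpace.single i 1, 0))
    (h2 : Function.Periodic F (0, 1)) : PerZ F := by
  intro m l x t
  have hper : Function.Periodic F (∑ i, m i • ((EuclideanSpace.single i 1, 0) : EE n × ℝ)) := by
    classical
    induction (Finset.univ : Finset (Fin n)) using Finset.induction_on with
    | empty => intro x; simp
    | insert i s hi ih =>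
      rw [Finset.sum_insert hi]
      exact ((h1 i).zsmul (m i)).add_period ih
  have e : ((x + WithLp.toLp 2 (fun i => (m i : ℝ)), t + l) : EE n × ℝ) =
      (x, t) + (∑ i, m i • ((EuclideanSpace.single i 1, 0) : EE n × ℝ) + l • ((0, 1) : EE n × ℝ)) := by
    refine Prod.ext ?_ ?_
    · simp only [Prod.fst_add, Prod.fst_sum, Prod.smul_fst, smul_zero, add_zero]
      congr 1
      ext j
      simp [Finset.sum_apply, Pi.single_apply]
    · simp [Prod.snd_sum]
  rw [e]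
  exact (hper.add_period (h2.zsmul l)) (x, t)

/-- twice differentiable potentials on the standard torus -/
def Pot2 {n : ℕ} (F : EE n × ℝ → ℝ) : Prop := ContDiff ℝ 2 F ∧ PerZ F

/-- smooth potentials on the standard torus -/
def PotS {n : ℕ} (F : EE n × ℝ → ℝ) : Prop := ContDiff ℝ ∞ F ∧ PerZ F

/-- index set of the data classes -/
abbrev Idx : Type := ℕ × ℚ × ℚ × ℚ × ℕ

section

variable {d : ℕ} {T : EE (d + 1) ≃L[ℝ] EE (d + 1)} {c : ℝ} {L : Lat d (EE (d + 1))}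

lemma isPot_core (hb : ∀ i : Fin d, L.b i = T (EuclideanSpace.single i.castSucc 1))
    (hg : L.g = T (EuclideanSpace.single (Fin.last d) 1)) {F : EE (d + 1) × ℝ → ℝ}
    (hF : Pot2 F) : L.IsPot (core T c F) := by
  refine ⟨?_, fun i x t => ?_, fun x t => ?_, fun x t => ?_⟩
  · have : (fun p : EE (d + 1) × ℝ => core T c F p.1 p.2) = fun p =>
        c * F (T.symm p.1, p.2) := rfl
    rw [this]
    exact contDiff_const.mul (hF.1.comp
      ((T.symm.contDiff.comp contDiff_fst).prodMk contDiff_snd))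
  · have h1 := perZ_single hF.2 i.castSucc (T.symm x, t)
    simp only [core]
    rw [← h1]
    simp [hb]
  · have h1 := perZ_single hF.2 (Fin.last d) (T.symm x, t)
    simp only [core]
    rw [← h1]
    simp [hg]
  · have h1 := perZ_time hF.2 (T.symm x, t)
    simp only [core]
    rw [← h1]
    simp

lemma unc_perZ (hb : ∀ i : Fin d, L.b i = T (EuclideanSpace.single i.castSucc 1))
    (hg : L.g = T (EuclideanSpace.single (Fin.last d) 1)) (l : ℕ) {G : EE (d + 1) → ℝ → ℝ}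
    (hG : L.IsSm G) : PotS (unc T c l L.g G) := by
  obtain ⟨p1, p2, p3⟩ := Orb.periodic_of L hG.perb hG.perg hG.pert
  refine ⟨unc_contDiff T c l L.g hG.smooth, perZ_of (fun i => ?_) ?_⟩
  · refine unc_periodic T c l L.g ?_
    rw [shear_apply]
    simp only [mul_zero, zero_smul, sub_zero]
    refine Fin.lastCases ?_ (fun i => ?_) i
    · rw [← hg]; exact p2
    · rw [← hb]; exact p1 i
  · refine unc_periodic T c l L.g ?_
    rw [shear_apply]
    have e : ((T 0 - ((l : ℝ) * 1) • L.g, 1) : EE (d + 1) × ℝ) = (-(l : ℤ)) • (L.g, 0) + (0, 1) := by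
      refine Prod.ext ?_ ?_
      · simp [← Int.cast_smul_eq_zsmul ℝ]
      · simp
    rw [e]
    exact (p2.zsmul _).add_period p3

/-- escaping orbits in the original coordinates -/
lemma orbit_of_escapes {B : EE (d + 1) →L[ℝ] EE (d + 1) →L[ℝ] ℝ} (hc : 0 < c)
    (hT : ∀ v w, ⟪T v, T w⟫ = c * B v w) {F : EE (d + 1) × ℝ → ℝ} (h : Escapes (core T c F)) :
    ∃ x v a : ℝ → EE (d + 1), (∀ t, HasDerivAt x (v t) t) ∧ (∀ t, HasDerivAt v (a t) t) ∧
      (∀ t, HasFDerivAt (fun z => F (z, t)) (B (a t)) (x t)) ∧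
      Tendsto (fun t => ‖v t‖) atTop atTop := by
  obtain ⟨X, V, h1, h2, h3, h4⟩ := h
  refine ⟨fun t => T.symm (X t), fun t => T.symm (V t), fun t => T.symm (deriv V t), fun t => ?_,
    fun t => ?_, fun t => ?_, ?_⟩
  · exact T.symm.hasFDerivAt.comp_hasDerivAt t (h1 t)
  · exact T.symm.hasFDerivAt.comp_hasDerivAt t (h3 t).hasDerivAt
  · have h5 : HasFDerivAt (fun z => core T c F z t) (innerSL ℝ (deriv V t)) (T (T.symm (X t))) := by
      rw [ContinuousLinearEquiv.apply_symm_apply]; exact h2 t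
    have h6 := HasFDerivAt.comp (g := fun z => core T c F z t) (f := T) (T.symm (X t)) h5 T.hasFDerivAt
    have h7 := h6.const_mul c⁻¹
    have e : (c⁻¹ • (innerSL ℝ (deriv V t)).comp (T : EE (d + 1) →L[ℝ] EE (d + 1))) =
        B (T.symm (deriv V t)) := by
      ext u
      have := hT (T.symm (deriv V t)) u
      rw [ContinuousLinearEquiv.apply_symm_apply] at this
      simp only [smul_apply, ContinuousLinearMap.comp_apply, ContinuousLinearEquiv.coe_coe,
        innerSL_apply_apply, smul_eq_mul]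
      rw [this, inv_mul_cancel_left₀ hc.ne']
    rw [e] at h7
    refine h7.congr_of_eventuallyEq (Eventually.of_forall fun z => ?_)
    simp only [core, Function.comp]
    rw [ContinuousLinearEquiv.symm_apply_apply, inv_mul_cancel_left₀ hc.ne']
  · have hlow : ∀ w : EE (d + 1), ‖w‖ ≤ ‖(T : EE (d + 1) →L[ℝ] EE (d + 1))‖ * ‖T.symm w‖ := by
      intro w
      have := (T : EE (d + 1) →L[ℝ] EE (d + 1)).le_opNorm (T.symm w)
      simpa using this
    have hK : 0 < ‖(T : EE (d + 1) →L[ℝ] EE (d + 1))‖ + 1 := by positivity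
    have h5 : Tendsto (fun t => (‖(T : EE (d + 1) →L[ℝ] EE (d + 1))‖ + 1)⁻¹ * ‖V t‖) atTop atTop :=
      h4.const_mul_atTop (inv_pos.2 hK)
    refine tendsto_atTop_mono (fun t => ?_) h5
    rw [inv_mul_le_iff₀ hK]
    have := hlow (V t)
    nlinarith [norm_nonneg (T.symm (V t))]

end

/-- the generic statement in raw form -/
theorem generic_raw {d : ℕ} (hd : 0 < d) (B : EE (d + 1) →L[ℝ] EE (d + 1) →L[ℝ] ℝ)
    (hs : ∀ v w, B v w = B w v) (hp : ∀ v, v ≠ 0 → 0 < B v v) :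
    ∃ (Dt : Idx → Set (EE (d + 1) × ℝ → ℝ)) (St : Idx → ℕ → Set (EE (d + 1) × ℝ → ℝ)),
      (∀ i, ∀ F ∈ Dt i, Pot2 F → ∃ ρ > 0, ∀ F', Pot2 F' → (∀ q, |F q - F' q| ≤ ρ) → F' ∈ Dt i) ∧
      (∀ i m, ∀ F ∈ St i m, Pot2 F → ∃ ρ > 0, ∀ F', Pot2 F' → (∀ q, |F q - F' q| ≤ ρ) → F' ∈ St i m) ∧
      (∀ F, Pot2 F → ∀ r : ℕ, ∀ ε > 0, ∃ G, PotS G ∧
        (∀ j ≤ r, ∀ q, ‖iteratedFDeriv ℝ j G q‖ < ε) ∧ ∃ i, (fun q => F q + G q) ∈ Dt i) ∧
      (∀ i m, ∀ F ∈ Dt i, Pot2 F → ∀ r : ℕ, ∀ ε > 0, ∃ G, PotS G ∧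
        (∀ j ≤ r, ∀ q, ‖iteratedFDeriv ℝ j G q‖ < ε) ∧ (fun q => F q + G q) ∈ St i m) ∧
      (∀ i, ∀ F ∈ Dt i, Pot2 F → (∀ m, F ∈ St i m) →
        ∃ x v a : ℝ → EE (d + 1), (∀ t, HasDerivAt x (v t) t) ∧ (∀ t, HasDerivAt v (a t) t) ∧
          (∀ t, HasFDerivAt (fun z => F (z, t)) (B (a t)) (x t)) ∧
          Tendsto (fun t => ‖v t‖) atTop atTop) := by
  obtain ⟨T, c, L, hc, hT, hb, hg⟩ := exists_frame B hs hp
  have hP : ∀ {F : EE (d + 1) × ℝ → ℝ}, Pot2 F → L.IsPot (core T c F) :=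
    fun hF => isPot_core hb hg hF
  have hsup : ∀ (l : ℕ) {F F' : EE (d + 1) × ℝ → ℝ} {ρ : ℝ}, (∀ q, |F q - F' q| ≤ ρ) → ∀ x t,
      |L.mf l (core T c F) x t - L.mf l (core T c F') x t| ≤ c * ρ := by
    intro l F F' ρ h x t
    simp only [Lat.mf, core]
    rw [← mul_sub, abs_mul, abs_of_pos hc]
    exact mul_le_mul_of_nonneg_left (h _) hc.le
  refine ⟨fun i => {F | L.Dat (i.2.1 : ℝ) (i.2.2.1 : ℝ) (i.2.2.2.1 : ℝ) (i.2.2.2.2 : ℝ)
      (L.mf i.1 (core T c F))},
    fun i m => {F | L.Stage (i.2.1 : ℝ) (i.2.2.1 : ℝ) (i.2.2.2.2 + m) (L.mf i.1 (core T c F))},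
    ?_, ?_, ?_, ?_, ?_⟩
  · intro i F hF hpot
    obtain ⟨ρ, hρ, h⟩ := dat_open L (isPot_mf L (hP hpot) i.1) hF
    refine ⟨ρ / c, by positivity, fun F' hF' hd' => h _ (isPot_mf L (hP hF') i.1) fun x t => ?_⟩
    have := hsup i.1 hd' x t
    rwa [mul_div_cancel₀ _ hc.ne'] at this
  · intro i m F hF hpot
    obtain ⟨ρ, hρ, h⟩ := stage_open L (p := (i.2.1 : ℝ)) (β := (i.2.2.1 : ℝ))
      (isPot_mf L (hP hpot) i.1) hF
    refine ⟨ρ / c, by positivity, fun F' hF' hd' => h _ (isPot_mf L (hP hF') i.1) fun x t => ?_⟩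
    have := hsup i.1 hd' x t
    rwa [mul_div_cancel₀ _ hc.ne'] at this
  · intro F hF r ε hε
    obtain ⟨N, hN⟩ := unc_small L T c 0 r
    obtain ⟨G, hG, hGε, l, p, β, Φ, M0, hDat⟩ := dat_dense L hd (hP hF) N hε
    refine ⟨unc T c 0 L.g G, unc_perZ hb hg 0 hG, fun j hj q => (hN G hG j hj q).trans_lt hGε,
      (l, p, β, Φ, M0), ?_⟩
    simp only [mem_ofPred_eq]
    rw [core_add L T hc.ne']
    exact hDat
  · intro i m F hF hpot r ε hε
    obtain ⟨N, hN⟩ := unc_small L T c i.1 r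
    obtain ⟨G, hG, hGε, hSt⟩ := stage_dense L hd (isPot_mf L (hP hpot) i.1) hF (m := i.2.2.2.2 + m)
      (by push_cast; linarith [(Nat.cast_nonneg m : (0:ℝ) ≤ m)]) N hε
    refine ⟨unc T c i.1 L.g G, unc_perZ hb hg i.1 hG, fun j hj q => (hN G hG j hj q).trans_lt hGε, ?_⟩
    simp only [mem_ofPred_eq]
    rw [mf_core_add L T hc.ne']
    exact hSt
  · intro i F hF hpot hS
    have h1 : Escapes (L.mf i.1 (core T c F)) := by
      refine escapes_of_stages L hd (isPot_mf L (hP hpot) i.1) hF fun m hm => ?_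
      have hm' : i.2.2.2.2 ≤ m := by exact_mod_cast hm
      obtain ⟨k, rfl⟩ := Nat.exists_eq_add_of_le hm'
      exact hS k
    exact orbit_of_escapes hc hT (escapes_mf L i.1 h1)

end Esc
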