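import Pool.Agent.helper37.Esc.Analysis
import Pool.Agent.helper42.Esc.K

/-!
Minimality of solutions on short intervals, variation bounds, good intervals.
-/

noncomputable section

set_option linter.unusedSectionVars false

namespace Esc

namespace Orb

open Set Filter Topology MeasureTheory intervalIntegral
open scoped NNReal RealInnerProductSpace

variable {E : Type*} [NormedAddCommGroup E] [InnerProductSpace ℝ E] [FiniteDimensional ℝ E]
variable {f : E → ℝ → ℝ} {g : E → ℝ → E} {M M0 Mg : ℝ}

lemma Sol.x_eq {x p : ℝ → E} (hs : Sol g x p) (a t : ℝ) : x t = x a + ∫ s in a..t, p s := by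
  rw [integral_eq_sub_of_hasDerivAt (fun s _ => hs.1 s) (hs.continuous_p.intervalIntegrable _ _)]
  abel

/-- short-time minimality -/
lemma short_min (h : Reg f g M M0) {x p : ℝ → E} (hs : Sol g x p) {u : ℝ → E} (hu : Adm u)
    {a b : ℝ} (hab : a < b) (hsh : M * (b - a) ^ 2 ≤ 1 / 2) (hb : traj a (x a) u b = x b) :
    A0 f x p a b ≤ act f 0 a b (x a) u := by
  rw [act_eq h hs hu, hb, sub_self, sub_self, inner_zero_right, inner_zero_right, sub_zero, add_zero]
  set W : ℝ := ∫ t in a..b, ‖u t - p t‖ ^ 2 with hW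
  have hcp := hs.continuous_p
  have hcx := hs.continuous_x
  have hct := traj_continuous hu (x a) a
  have hM := h.M_nonneg
  have iw : IntervalIntegrable (fun t => u t - p t) volume a b :=
    (hu.oii a b).sub (hcp.intervalIntegrable _ _)
  have iw2 : IntervalIntegrable (fun t => ‖u t - p t‖ ^ 2) volume a b := by
    obtain ⟨B, hB⟩ := (isCompact_uIcc (a := a) (b := b)).exists_bound_of_continuousOn
      hcp.continuousOn
    obtain ⟨C, hC0, hC⟩ := hu.onb
    rw [intervalIntegrable_iff]
    refine Measure.integrableOn_of_bounded (M := (C + B) ^ 2) (by simp) ?_ ?_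
    · exact ((hu.1.aestronglyMeasurable.sub hcp.aestronglyMeasurable).norm.pow 2)
    · refine (ae_restrict_iff' measurableSet_uIoc).2 (Eventually.of_forall fun t ht => ?_)
      have h5 := hB t (uIoc_subset_uIcc ht)
      rw [Real.norm_eq_abs, abs_of_nonneg (by positivity)]
      exact pow_le_pow_left₀ (norm_nonneg _) ((norm_sub_le _ _).trans (add_le_add (hC t) h5)) 2
  have hη : ∀ t ∈ Icc a b, ‖traj a (x a) u t - x t‖ ^ 2 ≤ (b - a) * W := by
    intro t ht
    have e1 : traj a (x a) u t - x t = ∫ s in a..t, (u s - p s) := by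
      rw [integral_sub (hu.oii a t) (hcp.intervalIntegrable _ _), traj, hs.x_eq a t]
      abel
    have hsub : uIcc a t ⊆ uIcc a b := by
      rw [uIcc_of_le ht.1, uIcc_of_le hab.le]
      exact Icc_subset_Icc_right ht.2
    rw [e1]
    refine (cs ht.1 (iw.mono_set hsub) (iw2.mono_set hsub)).trans ?_
    have h1 : ∫ s in a..t, ‖u s - p s‖ ^ 2 ≤ W := by
      refine intervalIntegral.integral_mono_interval le_rfl ht.1 ht.2 ?_ iw2
      exact Eventually.of_forall fun s => by positivity
    have h2 : 0 ≤ ∫ s in a..t, ‖u s - p s‖ ^ 2 :=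
      intervalIntegral.integral_nonneg ht.1 fun s _ => by positivity
    exact mul_le_mul (by linarith [ht.2]) h1 h2 (by linarith)
  have hrem : - (M * ((b - a) * W)) * (b - a) ≤ ∫ t in a..b, rem f g x (traj a (x a) u) t := by
    have : ∫ t in a..b, (- (M * ((b - a) * W))) = (- (M * ((b - a) * W))) * (b - a) := by
      rw [intervalIntegral.integral_const, smul_eq_mul]; ring
    rw [← this]
    refine intervalIntegral.integral_mono_on hab.le intervalIntegrable_const
      ((h.rem_cont hcx hct).intervalIntegrable _ _) fun t ht => ?_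
    have h1 := (abs_le.1 (h.taylor (x t) (traj a (x a) u t) t)).1
    have h2 := mul_le_mul_of_nonneg_left (hη t ht) hM
    simp only [rem]
    linarith
  have hW2 : ∫ t in a..b, ‖u t - p t‖ ^ 2 / 2 = W / 2 := by
    rw [intervalIntegral.integral_div]
  have hW0 : 0 ≤ W := intervalIntegral.integral_nonneg hab.le fun s _ => by positivity
  rw [hW2]
  nlinarith [mul_nonneg hW0 (sub_nonneg.2 hsh)]

/-- variation bound for the kernel around a solution -/
lemma ker_var (h : Reg f g M M0) (hg : Good Mg f) {x p : ℝ → E} (hs : Sol g x p) {a b : ℝ} (hab : a < b)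
    (ζ ξ : E) : ker f 0 a b (x a + ζ) (x b + ξ) ≤ A0 f x p a b + ⟪p b, ξ⟫ - ⟪p a, ζ⟫ +
      ‖ξ - ζ‖ ^ 2 / (2 * (b - a)) + M * (b - a) * (‖ζ‖ + ‖ξ‖) ^ 2 := by
  have hpos : 0 < b - a := by linarith
  set c : E := (b - a)⁻¹ • (ξ - ζ) with hc
  set u : ℝ → E := fun t => (Icc a b).indicator p t + c with hu'
  have hu : Adm u := (ctrl_of_continuousOn_indicator hs.continuous_p a b).oadd (Adm.oconst c)
  have htr : ∀ t ∈ Icc a b, traj a (x a + ζ) u t = x t + ζ + (t - a) • c := by
    intro t ht
    have e1 : ∫ s in a..t, u s = (∫ s in a..t, p s) + (t - a) • c := by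
      rw [show (fun s => u s) = fun s => (Icc a b).indicator p s + c from rfl,
        intervalIntegral.integral_add
          ((ctrl_of_continuousOn_indicator hs.continuous_p a b).oii a t)
          intervalIntegrable_const, intervalIntegral.integral_const]
      congr 1
      refine intervalIntegral.integral_congr fun s hs' => ?_
      rw [uIcc_of_le ht.1] at hs'
      exact indicator_of_mem (mem_Icc.2 ⟨hs'.1, hs'.2.trans ht.2⟩) p
    rw [traj, e1, hs.x_eq a t]; abel
  have htb : traj a (x a + ζ) u b = x b + ξ := by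
    rw [htr b (right_mem_Icc.2 hab.le), hc, smul_smul, mul_inv_cancel₀ hpos.ne', one_smul]; abel
  have hk := ker_le_act hg 0 hab (x a + ζ) hu
  rw [htb] at hk
  refine hk.trans ?_
  rw [act_eq h hs hu, htb]
  have e2 : x b + ξ - x b = ξ := by abel
  have e3 : x a + ζ - x a = ζ := by abel
  rw [e2, e3]
  have e4 : ∫ t in a..b, ‖u t - p t‖ ^ 2 / 2 = ‖ξ - ζ‖ ^ 2 / (2 * (b - a)) := by
    have : ∫ t in a..b, ‖u t - p t‖ ^ 2 / 2 = ∫ t in a..b, ‖c‖ ^ 2 / 2 := by
      refine intervalIntegral.integral_congr fun s hs' => ?_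
      rw [uIcc_of_le hab.le] at hs'
      simp only [hu', indicator_of_mem hs', add_sub_cancel_left]
    rw [this, intervalIntegral.integral_const, smul_eq_mul, hc, norm_smul, mul_pow, Real.norm_eq_abs, sq_abs]
    field_simp
  rw [e4]
  have e5 : ∫ t in a..b, rem f g x (traj a (x a + ζ) u) t ≤ M * (b - a) * (‖ζ‖ + ‖ξ‖) ^ 2 := by
    have : M * (b - a) * (‖ζ‖ + ‖ξ‖) ^ 2 = ∫ t in a..b, M * (‖ζ‖ + ‖ξ‖) ^ 2 := by
      rw [intervalIntegral.integral_const, smul_eq_mul]; ring
    rw [this]
    refine intervalIntegral.integral_mono_on hab.le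
      ((h.rem_cont hs.continuous_x (traj_continuous hu _ _)).intervalIntegrable _ _)
      intervalIntegrable_const fun t ht => ?_
    have h1 := (abs_le.1 (h.taylor (x t) (traj a (x a + ζ) u t) t)).2
    have h2 : ‖traj a (x a + ζ) u t - x t‖ ≤ ‖ζ‖ + ‖ξ‖ := by
      rw [htr t ht]
      have e6 : x t + ζ + (t - a) • c - x t = (1 - (t - a) / (b - a)) • ζ + ((t - a) / (b - a)) • ξ := by
        rw [hc, smul_smul, div_eq_mul_inv, smul_sub, sub_smul, one_smul]; abel
      rw [e6]
      have h3 : 0 ≤ (t - a) / (b - a) := div_nonneg (by linarith [ht.1]) hpos.le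
      have h4 : (t - a) / (b - a) ≤ 1 := (div_le_one hpos).2 (by linarith [ht.2])
      refine (norm_add_le _ _).trans ?_
      rw [norm_smul, norm_smul, Real.norm_eq_abs, Real.norm_eq_abs, abs_of_nonneg h3,
        abs_of_nonneg (by linarith)]
      nlinarith [norm_nonneg ζ, norm_nonneg ξ]
    have h3 : ‖traj a (x a + ζ) u t - x t‖ ^ 2 ≤ (‖ζ‖ + ‖ξ‖) ^ 2 :=
      pow_le_pow_left₀ (norm_nonneg _) h2 2
    have h4 := mul_le_mul_of_nonneg_left h3 h.M_nonneg
    simp only [rem]
    linarith
  linarith

/-- the action of a solution bounds the kernel from above -/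
lemma ker_le_A0 (h : Reg f g M M0) (hg : Good Mg f) {x p : ℝ → E} (hs : Sol g x p) {a b : ℝ}
    (hab : a < b) : ker f 0 a b (x a) (x b) ≤ A0 f x p a b := by
  have := ker_var h hg hs hab 0 0
  simpa using this

/-- boundary value problem on short intervals -/
lemma bvp (h : Reg f g M M0) {a b : ℝ} (hab : a < b) (hsh : M * (b - a) ^ 2 ≤ 1 / 4) (z z' : E) :
    ∃ x p : ℝ → E, Sol g x p ∧ x a = z ∧ x b = z' := by
  have hpos : 0 < b - a := by linarith
  have hM := h.M_nonneg
  choose X P hS hX hP using fun q => h.exists_sol a z q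
  have key : ∀ q r : E, ‖X q b - X r b - (b - a) • (q - r)‖ ≤ (b - a) * ((1 / 2) * ‖q - r‖) := by
    intro q r
    have hc : Continuous (fun t => ‖X q t - X r t‖) :=
      ((hS q).continuous_x.sub (hS r).continuous_x).norm
    obtain ⟨t0, ht0, hmax⟩ := (isCompact_Icc (a := a) (b := b)).exists_isMaxOn
      (nonempty_Icc.2 hab.le) hc.continuousOn
    set D : ℝ := ‖X q t0 - X r t0‖ with hD
    have hD0 : 0 ≤ D := norm_nonneg _
    have hDle : ∀ t ∈ Icc a b, ‖X q t - X r t‖ ≤ D := fun t ht => hmax ht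
    have h1 : ∀ t ∈ Icc a b, ‖P q t - P r t - (q - r)‖ ≤ (M * D) * (b - a) := by
      intro t ht
      have := Convex.norm_image_sub_le_of_norm_hasDerivWithin_le (f := fun t => P q t - P r t)
        (f' := fun t => g (X q t) t - g (X r t) t)
        (s := Icc a b) (x := a) (y := t) (C := M * D)
        (fun s _ => (((hS q).2 s).sub ((hS r).2 s)).hasDerivWithinAt)
        (fun s hs => (h.lip _ _ _).trans (mul_le_mul_of_nonneg_left (hDle s hs) hM))
        (convex_Icc a b) (left_mem_Icc.2 hab.le) ht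
      simp only [hP] at this
      refine this.trans (mul_le_mul_of_nonneg_left ?_ (mul_nonneg hM hD0))
      rw [Real.norm_eq_abs, abs_of_nonneg (by linarith [ht.1])]
      linarith [ht.2]
    have h2 : ∀ t ∈ Icc a b, ‖X q t - X r t - (t - a) • (q - r)‖ ≤ (M * D) * (b - a) * (b - a) := by
      intro t ht
      have := Convex.norm_image_sub_le_of_norm_hasDerivWithin_le
        (f := fun t => X q t - X r t - (t - a) • (q - r))
        (f' := fun t => P q t - P r t - (q - r))
        (s := Icc a b) (x := a) (y := t) (C := (M * D) * (b - a))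
        (fun s _ => by
          have h3 := ((hS q).1 s).sub ((hS r).1 s)
          have h4 : HasDerivAt (fun t : ℝ => (t - a) • (q - r)) ((1 : ℝ) • (q - r)) s :=
            ((hasDerivAt_id s).sub_const a).smul_const (q - r)
          rw [one_smul] at h4
          exact (h3.sub h4).hasDerivWithinAt)
        (fun s hs => h1 s hs) (convex_Icc a b) (left_mem_Icc.2 hab.le) ht
      simp only [hX, sub_self, zero_smul, sub_zero] at this
      refine this.trans (mul_le_mul_of_nonneg_left ?_ (by positivity))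
      rw [Real.norm_eq_abs, abs_of_nonneg (by linarith [ht.1])]
      linarith [ht.2]
    have h3 : (M * D) * (b - a) * (b - a) ≤ D / 4 := by nlinarith
    have h4 : D ≤ (b - a) * ‖q - r‖ + D / 4 := by
      have h5 := h2 t0 ht0
      have h6 : ‖(t0 - a) • (q - r)‖ ≤ (b - a) * ‖q - r‖ := by
        rw [norm_smul, Real.norm_eq_abs, abs_of_nonneg (by linarith [ht0.1])]
        exact mul_le_mul_of_nonneg_right (by linarith [ht0.2]) (norm_nonneg _)
      have h7 : X q t0 - X r t0 = (X q t0 - X r t0 - (t0 - a) • (q - r)) + (t0 - a) • (q - r) := by abel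
      have h8 : D ≤ ‖X q t0 - X r t0 - (t0 - a) • (q - r)‖ + ‖(t0 - a) • (q - r)‖ := by
        rw [hD]; conv_lhs => rw [h7]
        exact norm_add_le _ _
      linarith
    have h5 := h2 b (right_mem_Icc.2 hab.le)
    have h6 : 0 ≤ (b - a) * ‖q - r‖ := by positivity
    nlinarith
  set Φ : E → E := fun q => q - (b - a)⁻¹ • (X q b - z') with hΦ
  have hcontr : ContractingWith (1 / 2 : ℝ≥0) Φ := by
    refine ⟨by rw [← NNReal.coe_lt_coe]; norm_num, LipschitzWith.of_dist_le_mul fun q r => ?_⟩
    rw [dist_eq_norm, dist_eq_norm]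
    have e : Φ q - Φ r = - ((b - a)⁻¹ • (X q b - X r b - (b - a) • (q - r))) := by
      simp only [hΦ]
      rw [smul_sub (b - a)⁻¹ (X q b - X r b), smul_smul, inv_mul_cancel₀ hpos.ne', one_smul]
      simp only [smul_sub]
      abel
    rw [e, norm_neg, norm_smul, norm_inv, Real.norm_eq_abs, abs_of_pos hpos]
    have := mul_le_mul_of_nonneg_left (key q r) (inv_pos.2 hpos).le
    refine this.trans (le_of_eq ?_)
    push_cast
    field_simp
  have hfix := hcontr.fixedPoint_isFixedPt
  set q := ContractingWith.fixedPoint Φ hcontr with hq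
  refine ⟨X q, P q, hS q, hX q, ?_⟩
  have h1 : q - (b - a)⁻¹ • (X q b - z') = q := hfix
  have h2 : (b - a)⁻¹ • (X q b - z') = 0 := sub_eq_self.1 h1
  rcases smul_eq_zero.1 h2 with h3 | h3
  · exact absurd h3 (inv_pos.2 hpos).ne'
  · exact sub_eq_zero.1 h3

/-- intervals on which the kernel is attained by solutions -/
def GoodI (f : E → ℝ → ℝ) (g : E → ℝ → E) (a b : ℝ) : Prop :=
  ∀ z z', ∃ x p : ℝ → E, Sol g x p ∧ x a = z ∧ x b = z' ∧ A0 f x p a b = ker f 0 a b z z'

lemma goodI_short (h : Reg f g M M0) (hg : Good Mg f) {a b : ℝ} (hab : a < b)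
    (hsh : M * (b - a) ^ 2 ≤ 1 / 4) : GoodI f g a b := by
  intro z z'
  obtain ⟨x, p, hs, hxa, hxb⟩ := bvp h hab hsh z z'
  refine ⟨x, p, hs, hxa, hxb, le_antisymm ?_ ?_⟩
  · refine le_of_forall_pos_lt_add fun ε hε => ?_
    obtain ⟨u, hu, hub, hact⟩ := exists_act_lt hg 0 hab z z' hε
    have := short_min h hs hu hab (hsh.trans (by norm_num)) (by rw [hxa, hub, hxb])
    rw [hxa] at this
    linarith
  · rw [← hxa, ← hxb]
    exact ker_le_A0 h hg hs hab

/-- matching of velocities -/
lemma match_vel {d : E} {C : ℝ} (hC : 0 ≤ C) (hd : ∀ᶠ ξ in 𝓝 (0 : E), 0 ≤ ⟪d, ξ⟫ + C * ‖ξ‖ ^ 2) :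
    d = 0 := by
  by_contra hne
  have hn : 0 < ‖d‖ ^ 2 := by
    have := norm_pos_iff.2 hne
    positivity
  have ht : Tendsto (fun s : ℝ => -(s • d)) (𝓝[>] 0) (𝓝 0) := by
    have h1 : Continuous (fun s : ℝ => -(s • d)) := by fun_prop
    have h2 := h1.tendsto 0
    simp only [zero_smul, neg_zero] at h2
    exact h2.mono_left nhdsWithin_le_nhds
  have h3 := ht.eventually hd
  have h4 : ∀ᶠ s : ℝ in 𝓝[>] 0, s < 1 / (C + 1) := by
    have : (0:ℝ) < 1 / (C + 1) := by positivity
    exact nhdsWithin_le_nhds (Iio_mem_nhds this)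
  obtain ⟨s, h5, h6, h7⟩ := (h3.and (h4.and self_mem_nhdsWithin)).exists
  have h7' : 0 < s := h7
  rw [inner_neg_right, real_inner_smul_right, real_inner_self_eq_norm_sq, norm_neg, norm_smul,
    mul_pow, Real.norm_eq_abs, sq_abs] at h5
  have h8 : s * (C + 1) < 1 := by rwa [lt_div_iff₀ (by positivity)] at h6
  have h9 : C * (s ^ 2 * ‖d‖ ^ 2) < s * ‖d‖ ^ 2 := by
    have h10 : 0 < s * ‖d‖ ^ 2 := by positivity
    nlinarith
  linarith

/-- local minimality of the sum of two kernels forces the velocities to match -/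
lemma vel_eq (h : Reg f g M M0) (hg : Good Mg f) {x p y q : ℝ → E} (h1 : Sol g x p) (h2 : Sol g y q)
    {a b c : ℝ} (hab : a < b) (hbc : b < c) (hxy : x b = y b)
    (hx : A0 f x p a b = ker f 0 a b (x a) (x b)) (hy : A0 f y q b c = ker f 0 b c (y b) (y c))
    (hmin : IsLocalMin (fun w => ker f 0 a b (x a) w + ker f 0 b c w (y c)) (x b)) : p b = q b := by
  have hM := h.M_nonneg
  have h0 : p b - q b = 0 := by
    refine match_vel (C := 1 / (2 * (b - a)) + M * (b - a) + (1 / (2 * (c - b)) + M * (c - b))) ?_ ?_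
    · have : 0 < b - a := by linarith
      have : 0 < c - b := by linarith
      positivity
    · have ht : Tendsto (fun ξ : E => x b + ξ) (𝓝 0) (𝓝 (x b)) := by
        have : Continuous (fun ξ : E => x b + ξ) := by fun_prop
        have := this.tendsto 0
        simpa using this
      filter_upwards [ht.eventually hmin] with ξ hξ
      have k1 := ker_var h hg h1 hab 0 ξ
      have k2 := ker_var h hg h2 hbc ξ 0
      rw [add_zero] at k1 k2
      rw [← hxy] at k2
      have e0 : ‖ξ - 0‖ = ‖ξ‖ := by rw [sub_zero]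
      have e0' : ‖0 - ξ‖ = ‖ξ‖ := by rw [zero_sub, norm_neg]
      rw [inner_zero_right, sub_zero (A0 f x p a b + _), norm_zero, zero_add, hx, e0] at k1
      rw [inner_zero_right, add_zero (A0 f y q b c), norm_zero, add_zero ‖ξ‖, hy, ← hxy, e0'] at k2
      rw [inner_sub_left]
      have e1 : ‖ξ‖ ^ 2 / (2 * (b - a)) = 1 / (2 * (b - a)) * ‖ξ‖ ^ 2 := by ring
      have e2 : ‖ξ‖ ^ 2 / (2 * (c - b)) = 1 / (2 * (c - b)) * ‖ξ‖ ^ 2 := by ring
      rw [e1] at k1
      rw [e2] at k2
      linarith
  exact sub_eq_zero.1 h0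

/-- concatenation of good intervals -/
lemma GoodI.concat (h : Reg f g M M0) (hg : Good Mg f) {a b c : ℝ} (hab : a < b) (hbc : b < c)
    (h1 : GoodI f g a b) (h2 : GoodI f g b c) : GoodI f g a c := by
  intro z z'
  have hac : a < c := hab.trans hbc
  have hpos : 0 < b - a := by linarith
  have hpos' : 0 < c - b := by linarith
  have hMg := hg.pos
  set φ : E → ℝ := fun w => ker f 0 a b z w + ker f 0 b c w z' with hφ
  have hφc : Continuous φ :=
    ((ker_continuous hg 0 hab).comp (continuous_const.prodMk continuous_id)).add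
      ((ker_continuous hg 0 hbc).comp (continuous_id.prodMk continuous_const))
  have hlow : ∀ w, ‖w - z‖ ^ 2 / (2 * (b - a)) - Mg * (b - a) - Mg * (c - b) ≤ φ w := by
    intro w
    have k1 := ker_lower hg 0 hab z w
    have k2 := ker_lower hg 0 hbc w z'
    rw [smul_zero, sub_zero] at k1 k2
    have k3 : 0 ≤ ‖z' - w‖ ^ 2 / (2 * (c - b)) := by positivity
    simp only [hφ]; linarith
  have hco : Tendsto φ (cocompact E) atTop := by
    refine tendsto_atTop_mono hlow ?_
    have t1 : Tendsto (fun w : E => ‖w - z‖) (cocompact E) atTop := by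
      have t2 : Tendsto (fun w : E => ‖w‖ - ‖z‖) (cocompact E) atTop :=
        tendsto_atTop_add_const_right _ (-‖z‖) (tendsto_norm_cocompact_atTop (E := E))
      refine tendsto_atTop_mono (fun w => ?_) t2
      exact norm_sub_norm_le w z
    have t3 : Tendsto (fun w : E => ‖w - z‖ ^ 2) (cocompact E) atTop :=
      (tendsto_pow_atTop two_ne_zero).comp t1
    have t4 : Tendsto (fun w : E => ‖w - z‖ ^ 2 / (2 * (b - a))) (cocompact E) atTop :=
      t3.atTop_div_const (by positivity)
    simp only [sub_eq_add_neg (_ / _) _, sub_eq_add_neg (_ + _) _]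
    exact tendsto_atTop_add_const_right _ _ (tendsto_atTop_add_const_right _ _ t4)
  obtain ⟨w, hw⟩ := hφc.exists_forall_le hco
  obtain ⟨x, p, hs, hxa, hxb, hxA⟩ := h1 z w
  obtain ⟨y, q, ht, hyb, hyc, hyA⟩ := h2 w z'
  have hpq : p b = q b := by
    refine vel_eq h hg hs ht hab hbc (hxb.trans hyb.symm) (by rw [hxa, hxb, hxA])
      (by rw [hyb, hyc, hyA]) ?_
    rw [hxa, hxb, hyc]
    exact Eventually.of_forall hw
  obtain ⟨hxy, hpq'⟩ := h.sol_unique hs ht (hxb.trans hyb.symm) hpq
  refine ⟨x, p, hs, hxa, by rw [hxy, hyc], ?_⟩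
  have hint : ∀ r s : ℝ, IntervalIntegrable (fun t => ‖p t‖ ^ 2 / 2 + f (x t) t) volume r s :=
    fun r s => (((hs.continuous_p.norm.pow 2).div_const 2).add
      (h.cont_along hs.continuous_x)).intervalIntegrable _ _
  have hsum : A0 f x p a c = φ w := by
    have e1 : A0 f x p a c = A0 f x p a b + A0 f x p b c := by
      rw [A0, A0, A0, intervalIntegral.integral_add_adjacent_intervals (hint a b) (hint b c)]
    rw [e1, hxA]
    have e2 : A0 f x p b c = A0 f y q b c := by rw [hxy, hpq']
    rw [e2, hyA]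
  refine le_antisymm ?_ ?_
  · rw [hsum]
    refine le_of_forall_pos_lt_add fun ε hε => ?_
    obtain ⟨u, hu, hub, hact⟩ := exists_act_lt hg 0 hac z z' hε
    have e3 : act f 0 a c z u = act f 0 a b z u + act f 0 b c (traj a z u b) u := by
      have htr : ∀ t, traj b (traj a z u b) u t = traj a z u t := by
        intro t
        simp only [traj]
        rw [add_assoc, intervalIntegral.integral_add_adjacent_intervals
          (hu.oii _ _) (hu.oii _ _)]
      have hi : ∀ r s : ℝ, IntervalIntegrable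
          (fun t => ‖u t - 0‖ ^ 2 / 2 + f (traj a z u t) t) volume r s := by
        intro r s
        refine IntervalIntegrable.add ?_ ((h.cont_along (traj_continuous hu z a)).intervalIntegrable _ _)
        simp only [sub_zero]
        exact (hu.osq r s).div_const 2
      simp only [act, htr]
      rw [intervalIntegral.integral_add_adjacent_intervals (hi a b) (hi b c)]
    have k1 := ker_le_act hg 0 hab z hu
    have k2 := ker_le_act hg 0 hbc (traj a z u b) hu
    have k3 : traj b (traj a z u b) u c = z' := by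
      rw [← hub]
      simp only [traj]
      rw [add_assoc, intervalIntegral.integral_add_adjacent_intervals
        (hu.oii _ _) (hu.oii _ _)]
    rw [k3] at k2
    have k4 := hw (traj a z u b)
    simp only [hφ] at k4 ⊢
    linarith
  · have := ker_le_A0 h hg hs hac
    rw [hxa, show x c = z' by rw [hxy, hyc]] at this
    exact this

/-- unit intervals are good -/
lemma goodI_unit (h : Reg f g M M0) (hg : Good Mg f) (j : ℝ) : GoodI f g j (j + 1) := by
  have hM := h.M_nonneg
  obtain ⟨N, hN⟩ := exists_nat_ge (4 * M + 1)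
  have hN0 : (0:ℝ) < N := by linarith
  have hN1 : (1:ℝ) ≤ N := by linarith
  have hsh : M * (1 / (N:ℝ)) ^ 2 ≤ 1 / 4 := by
    rw [div_pow, one_pow, mul_one_div, div_le_iff₀ (by positivity)]
    nlinarith
  have key : ∀ i : ℕ, GoodI f g j (j + (i + 1 : ℕ) / N) := by
    intro i
    induction i with
    | zero =>
      refine goodI_short h hg ?_ ?_
      · have : (0:ℝ) < ((0 + 1 : ℕ) : ℝ) / N := by positivity
        linarith
      · have : j + ((0 + 1 : ℕ) : ℝ) / N - j = 1 / N := by push_cast; ring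
        rw [this]; exact hsh
    | succ i ih =>
      refine ih.concat h hg ?_ ?_ (goodI_short h hg ?_ ?_)
      · have : (0:ℝ) < ((i + 1 : ℕ) : ℝ) / N := by positivity
        linarith
      · have : ((i + 1 : ℕ) : ℝ) / N < ((i + 1 + 1 : ℕ) : ℝ) / N := by
          apply div_lt_div_of_pos_right _ hN0
          push_cast; linarith
        linarith
      · have : ((i + 1 : ℕ) : ℝ) / N < ((i + 1 + 1 : ℕ) : ℝ) / N := by
          apply div_lt_div_of_pos_right _ hN0
          push_cast; linarith
        linarith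
      · have : j + ((i + 1 + 1 : ℕ) : ℝ) / N - (j + ((i + 1 : ℕ) : ℝ) / N) = 1 / N := by
          push_cast; ring
        rw [this]; exact hsh
  have hNn : 0 < N := by exact_mod_cast hN0
  obtain ⟨i, rfl⟩ : ∃ i, N = i + 1 := ⟨N - 1, by omega⟩
  have := key i
  rwa [div_self (by exact_mod_cast hN0.ne')] at this

end Orb

end Esc
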